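import Pool.Agent.Q311.LN.Sieg

/-!
# Period matrices whose monodromy is dense in a given set
-/

set_option autoImplicit false

open Filter NumberField Matrix

namespace Pool.Agent.Q311.LN

open Pool.Agent.Q311.MV
open Pool.Agent.Y119.PLM (MT Ix IsMon vt pe mon_mem GalT)
open Pool.Agent.Y890.MV (evM)

variable {X κ : Type} [Fintype X] {n : κ → ℕ}

/-- the monodromy is dense in `G`: all polynomials which vanish at the monodromy tuples vanish on `G` -/
def DenseIn (U : Set (X → ℂ)) (Y : (X → ℂ) → MT n) (G : Set (MT n)) : Prop :=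
  ∀ p : MvPolynomial (Ix n) ℂ, (∀ g, IsMon U Y g → MvPolynomial.eval (fun i : Ix n => g i.1 i.2.1 i.2.2) p = 0) →
    ∀ g ∈ G, MvPolynomial.eval (fun i : Ix n => g i.1 i.2.1 i.2.2) p = 0

theorem dns_mem {U : Set (X → ℂ)} {Y : (X → ℂ) → MT n} (hU : IsPreconnected U)
    (hY : ∀ j a b, AnalyticOnNhd ℂ (fun x => Y x j a b) U) {G : Set (MT n)} (hD : DenseIn U Y G)
    (g : MT n) (hg : g ∈ G) : g ∈ GalT U Y := by
  intro P hP x hx
  obtain ⟨p, hp⟩ : ∃ p : MvPolynomial (Ix n) ℂ, ∀ g, pe p g = vt P x (Y x * g) := by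
    refine ⟨MvPolynomial.eval₂ (MvPolynomial.C.comp (MvPolynomial.eval x))
      (fun i : Ix n => ∑ k, MvPolynomial.C (Y x i.1 i.2.1 k) * MvPolynomial.X ⟨i.1, k, i.2.2⟩) P, fun g => ?_⟩
    unfold pe vt
    rw [MvPolynomial.hom_eval₂]
    congr 1
    · ext <;> simp
    · funext i
      rw [map_sum, Pi.mul_apply, Matrix.mul_apply]
      refine Finset.sum_congr rfl fun k _ => ?_
      rw [map_mul, MvPolynomial.eval_C, MvPolynomial.eval_X]
  rw [← hp]
  refine hD p (fun h hh => ?_) g hg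
  have h1 := hp h
  unfold pe at h1
  rw [h1]
  exact mon_mem hU hY hh P hP x hx

/-- functional relations between the entries of the period matrices hold on the torsor -/
theorem dns_inv {U : Set (X → ℂ)} (hU : IsPreconnected U)
    {Y : (X → ℂ) → MT n} (hY : ∀ j a b, AnalyticOnNhd ℂ (fun x => Y x j a b) U) {G : Set (MT n)}
    (hD : DenseIn U Y G) (p : MvPolynomial (Ix n) (MvPolynomial X ℂ))
    (hp : ∀ x ∈ U, evM (fun (i : Ix n) x => Y x i.1 i.2.1 i.2.2) x p = 0) {x : X → ℂ} (hx : x ∈ U) {y : Ix n → ℂ}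
    (hdet : ∀ j, (Y x j).det ≠ 0) (hA : (fun j => (Y x j)⁻¹ * mat y j : MT n) ∈ G) :
    MvPolynomial.eval₂ (MvPolynomial.eval x) y p = 0 := by
  have h1 := dns_mem hU hY hD _ hA p hp x hx
  have h2 : Y x * (fun j => (Y x j)⁻¹ * mat y j) = mat y := by
    funext j
    rw [Pi.mul_apply, ← Matrix.mul_assoc, mul_nonsing_inv _ (isUnit_iff_ne_zero.2 (hdet j)), Matrix.one_mul]
  rw [h2] at h1
  exact h1

/-- the matrix of the variables -/
noncomputable def genn (n : κ → ℕ) (j : κ) : Matrix (Fin (n j)) (Fin (n j)) (MvPolynomial (Ix n) ℂ) :=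
  Matrix.of fun a b => MvPolynomial.X ⟨j, a, b⟩

/-- the matrix of the variables times `N` -/
noncomputable def gnn (N : MT n) (j : κ) : Matrix (Fin (n j)) (Fin (n j)) (MvPolynomial (Ix n) ℂ) :=
  genn n j * (N j).map MvPolynomial.C

theorem gnn_map (N : MT n) (j : κ) (y : Ix n → ℂ) :
    (gnn N j).map (MvPolynomial.eval y) = mat y j * N j := by
  rw [gnn, Matrix.map_mul]
  have h1 : (genn n j).map (MvPolynomial.eval y) = mat y j := by
    ext a b
    simp [genn, mat]
  have h2 : (((N j).map (MvPolynomial.C : ℂ →+* MvPolynomial (Ix n) ℂ)).map (MvPolynomial.eval y)) = N j := by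
    ext a b
    simp
  rw [h1, h2]

end Pool.Agent.Q311.LN
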