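import Pool.Agent.Q311.LN.Few
import Pool.Agent.Y776.Cv.Fix

/-!
# Elliptic functions of analytic functions of several variables
-/

set_option autoImplicit false

open scoped PeriodPair

namespace Pool.Agent.Q311.LN

open Pool.Agent.Q311.MV

/-- The Weierstrass zeta function `ζ(z) = ∑ (1/(z-l) + 1/l + z/l²)`, the sum over the lattice (the summand of `l = 0` is
`1/z`, since `1/0 = 0` in Lean). -/
noncomputable def ζ (L : PeriodPair) (z : ℂ) : ℂ :=
  ∑' l : L.lattice, (1 / (z - l) + 1 / l + z / l ^ 2)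

/-- the functions are analytic outside the lattice -/
theorem ell_an (L : PeriodPair) {z : ℂ} (hz : z ∉ L.lattice) : AnalyticAt ℂ (ζ L) z ∧ AnalyticAt ℂ ℘[L] z := by
  have hop : IsOpen (L.lattice : Set ℂ)ᶜ := L.isClosed_lattice.isOpen_compl
  obtain ⟨r, hr, hb⟩ := Metric.isOpen_iff.1 hop z hz
  have hLF : Y776.Fam.LF (Metric.ball z r) (fun _ => L) :=
    ⟨Metric.isOpen_ball, (convex_ball z r).isPreconnected, analyticOnNhd_const, analyticOnNhd_const⟩
  exact ⟨hLF.an_zeta (p := fun z => z) analyticOnNhd_id (fun w hw => hb hw) z (Metric.mem_ball_self hr),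
    hLF.an_wp (p := fun z => z) analyticOnNhd_id (fun w hw => hb hw) z (Metric.mem_ball_self hr)⟩

/-- The names of the functions `t_k`, `exp(t_k)`, `p_i`, `ζ(p_i)`, `℘(p_i)`. -/
inductive EName (n s : ℕ) : Type
  | t : Fin s → EName n s
  | expt : Fin s → EName n s
  | p : Fin n → EName n s
  | zeta : Fin n → EName n s
  | wp : Fin n → EName n s

/-- The values of the functions at the point `x`; `Λ 0, …, Λ (q - 1)` are lattices and `p i` is a point of the lattice
`Λ (c i)`. -/
noncomputable def evalue {X : Type} {q n s : ℕ} (Λ : Fin q → PeriodPair) (c : Fin n → Fin q)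
    (p : Fin n → (X → ℂ) → ℂ) (t : Fin s → (X → ℂ) → ℂ) (x : X → ℂ) : EName n s → ℂ
  | EName.t k => t k x
  | EName.expt k => Complex.exp (t k x)
  | EName.p i => p i x
  | EName.zeta i => ζ (Λ (c i)) (p i x)
  | EName.wp i => ℘[Λ (c i)] (p i x)

/-- the name of a function -/
def enm {n s : ℕ} : Y776.Cv.Nf n s → EName n s :=
  Sum.elim EName.t (Sum.elim EName.expt (Sum.elim EName.p (Sum.elim EName.zeta EName.wp)))

/-- the function with a given name -/
def emn {n s : ℕ} : EName n s → Y776.Cv.Nf n s := fun a => match a with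
  | EName.t k => Sum.inl k
  | EName.expt k => Sum.inr (Sum.inl k)
  | EName.p i => Sum.inr (Sum.inr (Sum.inl i))
  | EName.zeta i => Sum.inr (Sum.inr (Sum.inr (Sum.inl i)))
  | EName.wp i => Sum.inr (Sum.inr (Sum.inr (Sum.inr i)))

/-- the names and the functions of the library -/
def eeqv (n s : ℕ) : Y776.Cv.Nf n s ≃ EName n s where
  toFun := enm
  invFun := emn
  left_inv := by rintro (k | k | i | i | i) <;> rfl
  right_inv := by rintro (k | k | i | i | i) <;> rfl

noncomputable instance (n s : ℕ) : Fintype (EName n s) := Fintype.ofEquiv _ (eeqv n s)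

noncomputable instance (n s : ℕ) : DecidableEq (EName n s) := Classical.decEq _

theorem ecard_name (n s : ℕ) : Fintype.card (EName n s) = 3 * n + 2 * s := by
  rw [← Fintype.card_congr (eeqv n s)]
  simp only [Fintype.card_sum, Fintype.card_fin]
  ring

/-- An analytic map from `U ⊆ ℂ ^ X` to the Lie algebra of a product of elliptic curves, no two of which are isogenous if
they belong to different indices, and a torus; it is generic along the line `a + z v` near the point with parameter
`z₀`. -/
structure EFamily {X : Type} [Fintype X] (U : Set (X → ℂ)) {q n s : ℕ} (Λ : Fin q → PeriodPair) (c : Fin n → Fin q)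
    (p : Fin n → (X → ℂ) → ℂ) (t : Fin s → (X → ℂ) → ℂ) (a v : X → ℂ) (z₀ : ℂ) (r : ℝ) : Prop where
  pos : 0 < s + n
  isPreconnected : IsPreconnected U
  /-- there is no nonzero homomorphism between the curves -/
  noHom : ∀ k l, k ≠ l → ∀ α : ℂ, (∀ w ∈ (Λ k).lattice, α * w ∈ (Λ l).lattice) → α = 0
  analytic_p : ∀ i, AnalyticOnNhd ℂ (p i) U
  p_notMem : ∀ i, ∀ x ∈ U, p i x ∉ (Λ (c i)).lattice
  analytic_t : ∀ k, AnalyticOnNhd ℂ (t k) U
  r_pos : 0 < r
  mem : ∀ z ∈ Metric.ball z₀ r, pt a v z ∈ U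
  /-- no nontrivial combination of points of one curve with coefficients in its ring of endomorphisms is constant along
  the line -/
  independent_p : ∀ (k : Fin q) (α : Fin n → ℂ) (b : ℂ), (∀ i, ∀ w ∈ (Λ k).lattice, α i * w ∈ (Λ k).lattice) →
    (∀ i, c i ≠ k → α i = 0) → (∀ z ∈ Metric.ball z₀ r, ∑ i, α i * p i (pt a v z) = b) → α = 0
  /-- no nontrivial combination with integral coefficients of the `t_k` is constant along the line -/
  independent_t : ∀ (m : Fin s → ℤ) (b : ℂ), (∀ z ∈ Metric.ball z₀ r, ∑ k, (m k : ℂ) * t k (pt a v z) = b) → m = 0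

variable {X : Type} [Fintype X] [DecidableEq X] {U : Set (X → ℂ)} {q n s : ℕ} {Λ : Fin q → PeriodPair}
  {c : Fin n → Fin q} {p : Fin n → (X → ℂ) → ℂ} {t : Fin s → (X → ℂ) → ℂ} {a v : X → ℂ} {z₀ : ℂ} {r : ℝ}

omit [DecidableEq X] in
theorem evalue_an (h : EFamily U Λ c p t a v z₀ r) (m : EName n s) :
    AnalyticOnNhd ℂ (fun x => evalue Λ c p t x m) U := by
  rcases m with k | k | i | i | i
  · exact h.analytic_t k
  · exact fun x hx => (h.analytic_t k x hx).cexp
  · exact h.analytic_p i
  · exact fun x hx => AnalyticAt.fun_comp (g := ζ (Λ (c i))) (f := p i) (ell_an _ (h.p_notMem i x hx)).1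
      (h.analytic_p i x hx)
  · exact fun x hx => AnalyticAt.fun_comp (g := ℘[Λ (c i)]) (f := p i) (ell_an _ (h.p_notMem i x hx)).2
      (h.analytic_p i x hx)

omit [Fintype X] [DecidableEq X] in
theorem evalue_eq (o : Y776.Cv.Nf n s) (z : ℂ) : evalue Λ c p t (pt a v z) (enm o) =
    Y776.Cv.yf Λ c (fun i z => p i (pt a v z)) (fun k z => t k (pt a v z)) o z := by
  rcases o with k | k | i | i | i <;> rfl

/-- **independent functions** -/
theorem eindep (hU : IsOpen U) (h : EFamily U Λ c p t a v z₀ r) : ∃ e : Fin (2 * n + s) → EName n s, Function.Injective e ∧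
    IndepM U fun k x => evalue Λ c p t x (e k) := by
  classical
  have hpa : ∀ i, AnalyticOnNhd ℂ (fun z => p i (pt a v z)) (Metric.ball z₀ r) := fun i z hz =>
    AnalyticAt.fun_comp (g := p i) (f := pt a v) (h.analytic_p i _ (h.mem z hz)) (pt_an a v z)
  have hta : ∀ k, AnalyticOnNhd ℂ (fun z => t k (pt a v z)) (Metric.ball z₀ r) := fun k z hz =>
    AnalyticAt.fun_comp (g := t k) (f := pt a v) (h.analytic_t k _ (h.mem z hz)) (pt_an a v z)
  have hF : Y776.Cv.FxM (Metric.ball z₀ r) Λ c (fun i z => p i (pt a v z)) (fun k z => t k (pt a v z)) :=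
    ⟨Metric.isOpen_ball, (convex_ball z₀ r).isPreconnected, fun k l hkl => h.noHom k l hkl, hpa,
      fun i z hz => h.p_notMem i _ (h.mem z hz), h.independent_p, hta, h.independent_t⟩
  obtain ⟨e, he, hL⟩ := Y776.Cv.fix_sub hF h.pos ⟨z₀, Metric.mem_ball_self h.r_pos⟩
  have hcast : 2 * n + s = s + 2 * n := by ring
  refine ⟨fun k => enm (e (Fin.cast hcast k)), fun k l hkl =>
    Fin.cast_injective hcast (he ((eeqv n s).injective hkl)), ?_⟩
  refine indep_of_line hU (fun i => evalue_an h _) (a := a) (v := v) (t0 := z₀)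
    (h.mem z₀ (Metric.mem_ball_self h.r_pos)) ?_
  have h1 := hL z₀ (Metric.mem_ball_self h.r_pos)
  intro P hP
  have h2 := h1 (MvPolynomial.rename (Option.map (Fin.cast hcast)) P) (by
    filter_upwards [hP] with z hz
    rw [MvPolynomial.eval_rename, ← hz]
    congr 2
    funext o
    rcases o with _ | k
    · rfl
    · exact (evalue_eq (e (Fin.cast hcast k)) z).symm)
  exact MvPolynomial.rename_injective _ (Option.map_injective (Fin.cast_injective hcast)) (by rw [h2, map_zero])

end Pool.Agent.Q311.LN
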