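import Pool.Agent.Q311.LN.Line

/-!
# Values of independent analytic functions of several variables at almost all points over all number fields: statements
-/

set_option autoImplicit false

open Filter NumberField

namespace Pool.Agent.Q311.LN

open Pool.Agent.Q311.MV Pool.Agent.Y890.MV

/-- the point with parameter `t` of the line through `a` in the direction `v` -/
def pt {X : Type} (a v : X → ℂ) (t : ℂ) : X → ℂ := fun k => a k + t * v k

/-- `f` is algebraic over `ℂ(x)` on `U` -/
def Algebraic {X : Type} (U : Set (X → ℂ)) (f : (X → ℂ) → ℂ) : Prop :=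
  ∃ P : MvPolynomial (Option X) ℂ, P ≠ 0 ∧ ∀ x ∈ U, MvPolynomial.eval (fun o : Option X => o.elim (f x) x) P = 0

/-- the polynomial in the `y i`, of degree at most `k` in each of them, with the coefficients `∑ a, c l a * ξ a` -/
noncomputable def poly {ι : Type} [Fintype ι] [DecidableEq ι] {k : ℕ} (c : (ι → Fin (k + 1)) → Fin k → ℂ)
    (ξ : Fin k → ℂ) (y : ι → ℂ) : ℂ :=
  ∑ l : ι → Fin (k + 1), (∑ a, c l a * ξ a) * ∏ i, y i ^ (l i : ℕ)

/-- There is no nontrivial relation of degree at most `k` in each `y i` with coefficients of the form `∑ a, c l a * ξ a`,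
where the `c l a` are integers of `K` with all conjugates at most `T ^ k`. -/
def Independent {ι : Type} [Fintype ι] [DecidableEq ι] (k : ℕ) (K : Type) [Field K] [NumberField K] (io : K →+* ℂ)
    (ξ : Fin k → ℂ) (T : ℝ) (y : ι → ℂ) : Prop :=
  ∀ c : (ι → Fin (k + 1)) → Fin k → 𝓞 K, (∀ l a (φ : K →+* ℂ), ‖φ (c l a : K)‖ ≤ T ^ k) →
    poly (fun l a => io (c l a : K)) ξ y = 0 → ∀ l, ∑ a, io (c l a : K) * ξ a = 0

/-- the points with coordinates in `K` of height at most `T` (quotients of two integers of `K` with all conjugates at most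
`T`), of norm at most `k` and at distance at least `1 / k` from the complement of `U`, at which the values of the functions
`F n` are not independent -/
def Exceptional {X N : Type} [Fintype X] [Fintype N] [DecidableEq N] (U : Set (X → ℂ)) (F : N → (X → ℂ) → ℂ)
    (k : ℕ) (K : Type) [Field K] [NumberField K] (io : K →+* ℂ) (ξ : Fin k → ℂ) (T : ℝ) : Set (X → K) :=
  {s | (∀ j, Y120.HtLe K T (s j)) ∧ (fun j => io (s j)) ∈ InnerM U k ∧
    ¬ Independent k K io ξ T fun n => F n fun j => io (s j)}

/-- the points lie on at most `T ^ (1 / k)` hypersurfaces of degree at most `T ^ (1 / k)`, and there are at most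
`T ^ (1 / k) * N ^ (|X| - 1)` of them, `N` being the number of elements of `K` of height at most `T` -/
def Few {X : Type} [Fintype X] (k : ℕ) (K : Type) [Field K] [NumberField K] (io : K →+* ℂ) (T : ℝ) (S : Set (X → K)) :
    Prop :=
  Y124.Cov ⌊T ^ ((k : ℝ)⁻¹)⌋₊ ⌊T ^ ((k : ℝ)⁻¹)⌋₊ ((fun (s : X → K) i => io (s i)) '' S) ∧ S.Finite ∧
    (S.ncard : ℝ) ≤ T ^ ((k : ℝ)⁻¹) * ({x : K | Y120.HtLe K T x}.ncard : ℝ) ^ (Fintype.card X - 1)

/-- There is `ω → ∞` such that for all large `T`, all number fields `K` of degree at most `ω T`, all embeddings and all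
complex numbers `ξ a`, `a < ω T`, there are few points with coordinates in `K` and of height at most `T` at which the values
of the functions `F n` satisfy a nontrivial relation of degree at most `ω T` with coefficients `∑ a, ξ a * c a`, `c a`
integers of `K` with all conjugates at most `T ^ ω T`. -/
def AlmostAllValues {X N : Type} [Fintype X] [Fintype N] [DecidableEq N] (U : Set (X → ℂ)) (F : N → (X → ℂ) → ℂ) :
    Prop :=
  ∃ (ω : ℝ → ℕ) (T₀ : ℝ), Tendsto ω atTop atTop ∧ Monotone ω ∧ ∀ T, T₀ ≤ T → 0 < ω T ∧
    ∀ (K : Type) [Field K] [NumberField K], Module.finrank ℚ K ≤ ω T → ∀ (io : K →+* ℂ) (ξ : Fin (ω T) → ℂ),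
      Few (ω T) K io T (Exceptional U F (ω T) K io ξ T)

variable {X N : Type} [Fintype X] [DecidableEq X] [Nonempty X] [Fintype N] [DecidableEq N]

theorem almostAll_of_indep {U : Set (X → ℂ)} {F : N → (X → ℂ) → ℂ} (hU : IsPreconnected U) (hUo : IsOpen U)
    (hne : U.Nonempty) (hF : ∀ n, AnalyticOnNhd ℂ (F n) U) (hind : IndepM U F) : AlmostAllValues U F := by
  classical
  obtain ⟨ω, T₀, h1, h2, h3⟩ := Pool.Agent.Q311.MV.main hU hUo hne hF hind (fun _ _ => 0)
  refine ⟨ω, T₀, h1, h2, fun T hT => ⟨(h3 T hT).1, fun K _ _ hK io ξ => ?_⟩⟩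
  obtain ⟨h4, h5, h6⟩ := (h3 T hT).2 K hK io ξ
  have hsub : Exceptional U F (ω T) K io ξ T ⊆
      {s : X → K | (∀ j, Y120.HtLe K T (s j)) ∧ (fun j => io (s j)) ∈ InnerM U (ω T) ∧
            ¬ (Free (ω T) K io ξ T (fun n => F n (fun j => io (s j))) ∧
              Free (ω T) K io (fun _ => 0) T (fun n => F n (fun j => io (s j))))} := by
    rintro s ⟨hs1, hs2, hs3⟩
    exact ⟨hs1, hs2, fun hf => hs3 fun c hc hv => hf.1 c hc hv⟩
  exact ⟨h4.mono le_rfl le_rfl (Set.image_mono hsub), h5.subset hsub,
    le_trans (by exact_mod_cast Set.ncard_le_ncard hsub h5) h6⟩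

omit [Fintype X] [DecidableEq X] [Nonempty X] in
/-- functions which are independent over the rational functions are not algebraic -/
theorem not_algebraic {σ : Type} {U : Set (X → ℂ)} {f : σ → (X → ℂ) → ℂ} (h : IndepM U f) (i : σ) :
    ¬ Algebraic U (f i) := by
  rintro ⟨P, hP, h0⟩
  apply hP
  let φ : MvPolynomial (Option X) ℂ →+* MvPolynomial σ (MvPolynomial X ℂ) :=
    MvPolynomial.eval₂Hom (MvPolynomial.C.comp MvPolynomial.C)
      fun o => o.elim (MvPolynomial.X i) fun k => MvPolynomial.C (MvPolynomial.X k)
  have h1 : ∀ (x : X → ℂ) (y : σ → ℂ), MvPolynomial.eval₂ (MvPolynomial.eval x) y (φ P) =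
      MvPolynomial.eval (fun o : Option X => o.elim (y i) x) P := by
    intro x y
    have h2 : (MvPolynomial.eval₂Hom (MvPolynomial.eval x) y).comp φ =
        MvPolynomial.eval fun o : Option X => o.elim (y i) x := by
      apply MvPolynomial.ringHom_ext
      · intro c
        simp [φ]
      · intro o
        rcases o with _ | k <;> simp [φ]
    exact congrFun (congrArg DFunLike.coe h2) P
  have h3 : φ P = 0 := h _ fun x hx => (h1 x _).trans (h0 x hx)
  apply MvPolynomial.funext
  intro z
  have h4 := h1 (fun k => z (some k)) (fun _ => z none)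
  rw [h3] at h4
  have h5 : (fun o : Option X => o.elim (z none) fun k => z (some k)) = z := by
    funext o
    rcases o with _ | k <;> rfl
  rw [h5] at h4
  rw [← h4, map_zero]
  exact map_zero (MvPolynomial.eval₂Hom (MvPolynomial.eval fun k => z (some k)) fun _ : σ => z none)

/-- a subfamily of independent functions -/
theorem indep_sub {X σ σ' : Type} {U : Set (X → ℂ)} {f : σ → (X → ℂ) → ℂ} (h : IndepM U f) {g : σ' → σ}
    (hg : Function.Injective g) : IndepM U fun k => f (g k) := by
  intro P hP
  have h2 : MvPolynomial.rename g P = 0 := by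
    apply h
    intro x hx
    rw [← hP x hx]
    unfold evM
    rw [MvPolynomial.eval₂_rename]
    rfl
  exact MvPolynomial.rename_injective _ hg (by rw [h2, map_zero])

/-- at least `m` of the independent functions are in a set `B` of functions with at most `d` functions outside -/
theorem indep_in {X N : Type} [Fintype N] [DecidableEq N] {U : Set (X → ℂ)} {F : N → (X → ℂ) → ℂ} {m d : ℕ}
    {e : Fin (m + d) → N} (he : Function.Injective e) (hI : IndepM U fun k => F (e k)) (B : N → Prop) [DecidablePred B]
    (hB : (Finset.univ.filter fun n => ¬ B n).card ≤ d) :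
    ∃ e' : Fin m → N, Function.Injective e' ∧ (∀ k, B (e' k)) ∧ IndepM U fun k => F (e' k) := by
  classical
  have h1 : (Finset.univ.filter fun k => ¬ B (e k)).card ≤ d := by
    refine le_trans (Finset.card_le_card_of_injOn e (fun k hk => ?_) he.injOn) hB
    rw [Finset.mem_coe, Finset.mem_filter] at hk ⊢
    exact ⟨Finset.mem_univ _, hk.2⟩
  have h2 : m ≤ Fintype.card {k // B (e k)} := by
    rw [Fintype.card_subtype]
    have h3 := Finset.card_filter_add_card_filter_not (s := (Finset.univ : Finset (Fin (m + d)))) (fun k => B (e k))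
    rw [Finset.card_univ, Fintype.card_fin] at h3
    omega
  obtain ⟨φ⟩ := Function.Embedding.nonempty_of_card_le (α := Fin m) (β := {k // B (e k)})
    (by rw [Fintype.card_fin]; exact h2)
  exact ⟨fun k => e (φ k).1, fun k l hkl => φ.injective (Subtype.ext (he hkl)), fun k => (φ k).2,
    indep_sub hI (g := fun k => (φ k).1) fun k l hkl => φ.injective (Subtype.ext hkl)⟩

omit [Fintype X] [DecidableEq X] [Nonempty X] in
/-- if all other functions are algebraic, then the independent functions are all the functions which are not -/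
theorem indep_compl {U : Set (X → ℂ)} {F : N → (X → ℂ) → ℂ} {m : ℕ} {e : Fin m → N} (he : Function.Injective e)
    (hI : IndepM U fun k => F (e k)) {S : Finset N} (hS : ∀ n ∈ S, Algebraic U (F n))
    (hc : S.card + m = Fintype.card N) : IndepM U fun n : {n : N // n ∉ S} => F n := by
  classical
  have hnot : ∀ k, e k ∉ S := fun k hk => not_algebraic hI k (hS _ hk)
  let e' : Fin m → {n : N // n ∉ S} := fun k => ⟨e k, hnot k⟩
  have he' : Function.Injective e' := fun k l hkl => he (congrArg Subtype.val hkl)
  have hcard : Fintype.card {n : N // n ∉ S} = m := by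
    rw [Fintype.card_subtype_compl, Fintype.card_coe]
    omega
  have hb : Function.Bijective e' :=
    (Fintype.bijective_iff_injective_and_card e').2 ⟨he', by rw [Fintype.card_fin, hcard]⟩
  intro P hP
  let E := Equiv.ofBijective e' hb
  have h2 : MvPolynomial.rename E.symm P = 0 := by
    apply hI
    intro x hx
    rw [← hP x hx]
    unfold evM
    rw [MvPolynomial.eval₂_rename]
    congr 1
    funext n
    change F (e (E.symm n)) x = F n x
    have : E (E.symm n) = n := E.apply_symm_apply n
    exact congrArg (fun q : {n : N // n ∉ S} => F q x) this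
  exact MvPolynomial.rename_injective _ E.symm.injective (by rw [h2, map_zero])

omit [DecidableEq X] [Nonempty X] in
theorem pt_an (a v : X → ℂ) (t : ℂ) : AnalyticAt ℂ (pt a v) t := by
  rw [analyticAt_pi_iff]
  intro k
  exact analyticAt_const.add (analyticAt_id.mul analyticAt_const)

end Pool.Agent.Q311.LN
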