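import Pool.Agent.Q311.LN.Few
import Pool.Agent.Y776.AxJ.Alg

/-!
# The modular invariant and its derivatives as functions of several variables
-/

set_option autoImplicit false

namespace Pool.Agent.Q311.LN

open Pool.Agent.Q311.MV

/-- The lattice `ℤ + ℤ τ`. -/
noncomputable def lattice (τ : ℂ) (h : 0 < τ.im) : PeriodPair where
  ω₁ := 1
  ω₂ := τ
  indep := (Y685.LL ⟨τ, h⟩).indep

/-- The modular invariant `j = 1728 g₂³ / (g₂³ - 27 g₃²)` on the upper half-plane. -/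
noncomputable def j (τ : ℂ) : ℂ :=
  if h : 0 < τ.im then 1728 * (lattice τ h).g₂ ^ 3 / ((lattice τ h).g₂ ^ 3 - 27 * (lattice τ h).g₃ ^ 2) else 0

theorem j_eq {τ : ℂ} (h : 0 < τ.im) : j τ = Y776.jf τ := by
  have h1 : Y685.LC τ = lattice τ h := by
    rw [Y685.LC, UpperHalfPlane.ofComplex_apply_of_im_pos h]
    rfl
  rw [j, dif_pos h, Y776.jf, h1]

theorem j_ev {τ : ℂ} (h : 0 < τ.im) : j =ᶠ[nhds τ] Y776.jf := by
  filter_upwards [Y776.AxJ.isOpen_H.mem_nhds h] with σ hσ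
  exact j_eq hσ

theorem dj_eq {τ : ℂ} (h : 0 < τ.im) : deriv j τ = deriv Y776.jf τ := (j_ev h).deriv_eq

theorem dj_ev {τ : ℂ} (h : 0 < τ.im) : deriv j =ᶠ[nhds τ] deriv Y776.jf := by
  filter_upwards [Y776.AxJ.isOpen_H.mem_nhds h] with σ hσ
  exact dj_eq hσ

theorem ddj_eq {τ : ℂ} (h : 0 < τ.im) : deriv (deriv j) τ = deriv (deriv Y776.jf) τ := (dj_ev h).deriv_eq

/-- composition with a function on the upper half-plane -/
theorem comp_an {X : Type} [Fintype X] {U : Set (X → ℂ)} {f : (X → ℂ) → ℂ} (hU : IsOpen U)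
    (hf : AnalyticOnNhd ℂ f U) (him : ∀ x ∈ U, 0 < (f x).im) {g g' : ℂ → ℂ}
    (hg : AnalyticOnNhd ℂ g' {τ : ℂ | 0 < τ.im}) (he : ∀ z : ℂ, 0 < z.im → g z = g' z) :
    AnalyticOnNhd ℂ (fun x => g (f x)) U := by
  intro x hx
  have h1 : AnalyticAt ℂ (fun x => g' (f x)) x :=
    AnalyticAt.fun_comp (g := g') (f := f) (hg _ (him x hx)) (hf x hx)
  refine h1.congr ?_
  filter_upwards [hU.mem_nhds hx] with y hy
  exact (he _ (him y hy)).symm

/-- the derivatives of `j` -/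
theorem jet_an {X : Type} [Fintype X] {U : Set (X → ℂ)} {f : (X → ℂ) → ℂ} (hU : IsOpen U)
    (hf : AnalyticOnNhd ℂ f U) (him : ∀ x ∈ U, 0 < (f x).im) :
    AnalyticOnNhd ℂ (fun x => j (f x)) U ∧ AnalyticOnNhd ℂ (fun x => deriv j (f x)) U ∧
      AnalyticOnNhd ℂ (fun x => deriv (deriv j) (f x)) U :=
  ⟨comp_an hU hf him Y776.AxJ.an_j fun _ hz => j_eq hz, comp_an hU hf him Y776.AxJ.an_dj fun _ hz => dj_eq hz,
    comp_an hU hf him Y776.AxJ.an_ddj fun _ hz => ddj_eq hz⟩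

end Pool.Agent.Q311.LN
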