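import Pool.Agent.Q311.LN.Few
import Pool.Agent.Q311.MV.Spec

/-!
# Linear relations between values of fixed polynomials
-/

set_option autoImplicit false

open NumberField

namespace Pool.Agent.Q311.LN

open Pool.Agent.Q311.MV

variable {N : Type} [Fintype N] [DecidableEq N]

theorem sum_extend {A : Type} [Fintype A] {k : ℕ} (e : A ↪ Fin k) {K : Type} [Field K] [NumberField K]
    (io : K →+* ℂ) (v : A → 𝓞 K) (u : A → ℂ) :
    ∑ a, io ((Function.extend e v 0 a : 𝓞 K) : K) * Function.extend e u 0 a = ∑ p, io (v p : K) * u p := by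
  classical
  have h1 : ∑ a, io ((Function.extend e v 0 a : 𝓞 K) : K) * Function.extend e u 0 a =
      ∑ a ∈ Finset.univ.image e, io ((Function.extend e v 0 a : 𝓞 K) : K) * Function.extend e u 0 a := by
    symm
    apply Finset.sum_subset (Finset.subset_univ _)
    intro a _ ha
    have h2 : ¬ ∃ p, e p = a := by
      rintro ⟨p, hp⟩
      exact ha (Finset.mem_image.2 ⟨p, Finset.mem_univ _, hp⟩)
    rw [Function.extend_apply' _ _ _ h2, Function.extend_apply' _ _ _ h2]
    simp
  rw [h1, Finset.sum_image (fun a _ b _ h => e.injective h)]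
  refine Finset.sum_congr rfl fun p _ => ?_
  rw [e.injective.extend_apply, e.injective.extend_apply]

/-- the constants: the coefficients of the polynomials `F i` -/
noncomputable def consts {I : Type} {d : ℕ} (F : I → MvPolynomial N ℂ) (k : ℕ)
    (e : I × (N → Fin (d + 1)) ↪ Fin k) : Fin k → ℂ :=
  Function.extend e (fun p => (F p.1).coeff (Finsupp.equivFunOnFinite.symm fun y => (p.2 y : ℕ))) 0

/-- at independent points, linear relations between the values of the polynomials `F i` are identities -/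
theorem lin_poly {I : Type} [Fintype I] {d k : ℕ} (F : I → MvPolynomial N ℂ) (hF : ∀ i y, (F i).degreeOf y ≤ d) (hd : d ≤ k)
    (e : I × (N → Fin (d + 1)) ↪ Fin k) {K : Type} [Field K] [NumberField K] {io : K →+* ℂ} {T : ℝ}
    (hT : 1 ≤ T) {y : N → ℂ} (h : Independent k K io (consts F k e) T y) (c : I → 𝓞 K)
    (hc : ∀ i (φ : K →+* ℂ), ‖φ (c i : K)‖ ≤ T ^ k)
    (h0 : ∑ i, io (c i : K) * MvPolynomial.eval y (F i) = 0) :
    ∑ i, MvPolynomial.C (io (c i : K)) * F i = 0 := by
  classical
  set P : MvPolynomial N ℂ := ∑ i, MvPolynomial.C (io (c i : K)) * F i with hP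
  have hPd : ∀ y, P.degreeOf y ≤ k := by
    intro y
    rw [hP]
    refine (MvPolynomial.degreeOf_sum_le _ _ _).trans (Finset.sup_le fun i _ => ?_)
    exact (MvPolynomial.degreeOf_C_mul_le _ _ _).trans ((hF i y).trans hd)
  have hcoeff : ∀ m, P.coeff m = ∑ i, io (c i : K) * (F i).coeff m := by
    intro m
    rw [hP, MvPolynomial.coeff_sum]
    exact Finset.sum_congr rfl fun i _ => MvPolynomial.coeff_C_mul _ _ _
  let v : (N → Fin (k + 1)) → I × (N → Fin (d + 1)) → 𝓞 K := fun l p =>
    if (fun y => (p.2 y : ℕ)) = fun y => (l y : ℕ) then c p.1 else 0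
  let c' : (N → Fin (k + 1)) → Fin k → 𝓞 K := fun l => Function.extend e (v l) 0
  have hsum : ∀ l : N → Fin (k + 1), ∑ a, io ((c' l a : 𝓞 K) : K) * consts F k e a =
      P.coeff (Finsupp.equivFunOnFinite.symm fun y => (l y : ℕ)) := by
    intro l
    rw [consts, sum_extend e io (v l), hcoeff, Fintype.sum_prod_type]
    refine Finset.sum_congr rfl fun i _ => ?_
    by_cases hl : ∃ l' : N → Fin (d + 1), (fun y => (l' y : ℕ)) = fun y => (l y : ℕ)
    · obtain ⟨l', hl'⟩ := hl
      rw [Finset.sum_eq_single l']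
      · simp only [v, if_pos hl', hl']
      · intro l'' _ hne
        have h1 : ¬ (fun y => (l'' y : ℕ)) = fun y => (l y : ℕ) := fun h1 => hne (by
          funext y
          exact Fin.ext (congrFun (h1.trans hl'.symm) y))
        simp only [v, if_neg h1]
        simp
      · intro h1
        exact absurd (Finset.mem_univ _) h1
    · have h1 : (F i).coeff (Finsupp.equivFunOnFinite.symm fun y => (l y : ℕ)) = 0 := by
        by_contra hne
        apply hl
        have h2 : ∀ y, (l y : ℕ) ≤ d := fun y =>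
          (MvPolynomial.monomial_le_degreeOf y (MvPolynomial.mem_support_iff.2 hne)).trans (hF i y)
        exact ⟨fun y => ⟨l y, Nat.lt_succ_of_le (h2 y)⟩, rfl⟩
      rw [h1, mul_zero]
      refine Finset.sum_eq_zero fun l' _ => ?_
      have h2 : ¬ (fun y => (l' y : ℕ)) = fun y => (l y : ℕ) := fun h2 => hl ⟨l', h2⟩
      simp only [v, if_neg h2]
      simp
  have hT0 : (0 : ℝ) ≤ T ^ k := by positivity
  have hbd : ∀ l a (φ : K →+* ℂ), ‖φ (c' l a : K)‖ ≤ T ^ k := by
    intro l a φ
    by_cases ha : ∃ p, e p = a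
    · obtain ⟨p, rfl⟩ := ha
      simp only [c', e.injective.extend_apply, v]
      split_ifs
      · exact hc _ φ
      · simpa using hT0
    · simp only [c', Function.extend_apply' _ _ _ ha]
      simpa using hT0
  have key := h c' hbd (by
    unfold poly
    simp only [hsum]
    have h1 : MvPolynomial.eval y P = 0 := by
      rw [hP, map_sum, ← h0]
      refine Finset.sum_congr rfl fun i _ => ?_
      rw [map_mul, MvPolynomial.eval_C]
    rw [← sum_exp hPd, map_sum] at h1
    rw [← h1]
    refine Finset.sum_congr rfl fun l _ => ?_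
    rw [MvPolynomial.eval_monomial, Finsupp.prod_fintype _ _ (fun i => pow_zero _)]
    rfl)
  rw [← sum_exp hPd]
  refine Finset.sum_eq_zero fun l _ => ?_
  have h1 := key l
  rw [hsum] at h1
  rw [h1, map_zero]

/-- if the values of the functions `G` are independent at almost all points, then at all points but few every linear
relation between the values of the polynomials `F i` in the `G` with bounded integral coefficients of `K` is an identity -/
theorem almostAll_lin {X I : Type} [Fintype X] [Fintype I] {U : Set (X → ℂ)} {G : N → (X → ℂ) → ℂ}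
    (hG : AlmostAllValues U G) (F : I → MvPolynomial N ℂ) (bad : ℕ → ∀ (K : Type) [Field K] [NumberField K],
      (K →+* ℂ) → ℝ → Set (X → K))
    (hbad : ∀ (k : ℕ) (K : Type) [Field K] [NumberField K] (io : K →+* ℂ) (T : ℝ), 0 < k → ∀ s ∈ bad k K io T,
      (∀ j, Y120.HtLe K T (s j)) ∧ (fun j => io (s j)) ∈ Pool.Agent.Y890.MV.InnerM U k ∧
      ∃ c : I → 𝓞 K, (∀ i (φ : K →+* ℂ), ‖φ (c i : K)‖ ≤ T ^ k) ∧
        ∑ i, io (c i : K) * MvPolynomial.eval (fun n => G n fun j => io (s j)) (F i) = 0 ∧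
        ∑ i, MvPolynomial.C (io (c i : K)) * F i ≠ 0) :
    ∃ (ω : ℝ → ℕ) (T₀ : ℝ), Filter.Tendsto ω Filter.atTop Filter.atTop ∧ Monotone ω ∧ ∀ T, T₀ ≤ T → 0 < ω T ∧
      ∀ (K : Type) [Field K] [NumberField K], Module.finrank ℚ K ≤ ω T → ∀ (io : K →+* ℂ),
        Few (ω T) K io T (bad (ω T) K io T) := by
  classical
  obtain ⟨ω, T₀, h1, h2, h3⟩ := hG
  obtain ⟨d, hd⟩ : ∃ d, ∀ i y, (F i).degreeOf y ≤ d :=
    ⟨∑ i, ∑ y, (F i).degreeOf y, fun i y =>
      (Finset.single_le_sum (f := fun y => (F i).degreeOf y) (fun _ _ => Nat.zero_le _) (Finset.mem_univ y)).trans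
        (Finset.single_le_sum (f := fun i => ∑ y, (F i).degreeOf y) (fun _ _ => Nat.zero_le _) (Finset.mem_univ i))⟩
  obtain ⟨T₁, hT₁⟩ := Filter.eventually_atTop.1
    ((h1.eventually_ge_atTop d).and (h1.eventually_ge_atTop (Fintype.card (I × (N → Fin (d + 1))))))
  refine ⟨ω, max (max T₀ T₁) 1, h1, h2, fun T hT => ?_⟩
  have ha : T₀ ≤ T := (le_max_left _ _).trans ((le_max_left _ _).trans hT)
  have hb : T₁ ≤ T := (le_max_right _ _).trans ((le_max_left _ _).trans hT)
  have hc : 1 ≤ T := (le_max_right _ _).trans hT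
  refine ⟨(h3 T ha).1, fun K _ _ hK io => ?_⟩
  obtain ⟨e⟩ := Function.Embedding.nonempty_of_card_le (α := I × (N → Fin (d + 1))) (β := Fin (ω T))
    (by rw [Fintype.card_fin]; exact (hT₁ T hb).2)
  obtain ⟨h4, h5, h6⟩ := (h3 T ha).2 K hK io (consts F (ω T) e)
  have hsub : bad (ω T) K io T ⊆ Exceptional U G (ω T) K io (consts F (ω T) e) T := by
    intro s hs
    obtain ⟨hs1, hs2, c, hc1, hc2, hc3⟩ := hbad (ω T) K io T (h3 T ha).1 s hs
    exact ⟨hs1, hs2, fun hI => hc3 (lin_poly F hd (hT₁ T hb).1 e hc hI c hc1 hc2)⟩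
  exact ⟨h4.mono le_rfl le_rfl (Set.image_mono hsub), h5.subset hsub,
    le_trans (by exact_mod_cast Set.ncard_le_ncard hsub h5) h6⟩

end Pool.Agent.Q311.LN
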