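import Pool.Agent.Q311.MV.Ind

/-!
# Functions of several variables whose restrictions to one line are independent
-/

set_option autoImplicit false

open Filter Topology

namespace Pool.Agent.Q311.LN

open Pool.Agent.Q311.MV Pool.Agent.Y890.MV

set_option linter.unusedSectionVars false

variable {X σ : Type} [Fintype X] [DecidableEq X]

/-- restriction of a relation to the plane `a + t v + ε w` -/
noncomputable def phi (a v w : X → ℂ) : MvPolynomial σ (MvPolynomial X ℂ) →+* Polynomial (MvPolynomial (Option σ) ℂ) :=
  MvPolynomial.eval₂Hom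
    (MvPolynomial.eval₂Hom (Polynomial.C.comp MvPolynomial.C)
      fun j => Polynomial.C (MvPolynomial.C (a j) + MvPolynomial.C (v j) * MvPolynomial.X none) +
        Polynomial.C (MvPolynomial.C (w j)) * Polynomial.X)
    fun i => Polynomial.C (MvPolynomial.X (some i))

/-- the value -/
theorem phi_eval (a v w : X → ℂ) (P : MvPolynomial σ (MvPolynomial X ℂ)) (t e : ℂ) (y : σ → ℂ) :
    Polynomial.eval₂ (MvPolynomial.eval fun o : Option σ => o.elim t y) e (phi a v w P) =
      MvPolynomial.eval₂ (MvPolynomial.eval fun j => a j + t * v j + e * w j) y P := by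
  have h : (Polynomial.eval₂RingHom (MvPolynomial.eval fun o : Option σ => o.elim t y) e).comp (phi a v w) =
      MvPolynomial.eval₂Hom (MvPolynomial.eval fun j => a j + t * v j + e * w j) y := by
    apply MvPolynomial.ringHom_ext
    · intro p
      simp only [phi, RingHom.comp_apply, MvPolynomial.eval₂Hom_C, Polynomial.coe_eval₂RingHom]
      have h2 : ((Polynomial.eval₂RingHom (MvPolynomial.eval fun o : Option σ => o.elim t y) e).comp
          (MvPolynomial.eval₂Hom (Polynomial.C.comp MvPolynomial.C)
            fun j => Polynomial.C (MvPolynomial.C (a j) + MvPolynomial.C (v j) * MvPolynomial.X none) +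
              Polynomial.C (MvPolynomial.C (w j)) * Polynomial.X)) =
          MvPolynomial.eval fun j => a j + t * v j + e * w j := by
        apply MvPolynomial.ringHom_ext
        · intro c
          simp
        · intro j
          simp
          ring
      exact congrFun (congrArg DFunLike.coe h2) p
    · intro i
      simp [phi]
  exact congrFun (congrArg DFunLike.coe h) P

theorem phi_ne {P : MvPolynomial σ (MvPolynomial X ℂ)} (hP : P ≠ 0) (a v : X → ℂ) : ∃ w, phi a v w P ≠ 0 := by
  obtain ⟨m, hm⟩ := MvPolynomial.ne_zero_iff.1 hP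
  obtain ⟨x1, hx1⟩ : ∃ x1, MvPolynomial.eval x1 (P.coeff m) ≠ 0 := by
    by_contra hcon
    push Not at hcon
    exact hm (MvPolynomial.funext fun x => by rw [hcon x, map_zero])
  refine ⟨fun j => x1 j - a j, fun h0 => ?_⟩
  have h1 : MvPolynomial.map (MvPolynomial.eval x1) P = 0 := by
    apply MvPolynomial.funext
    intro y
    rw [MvPolynomial.eval_map, map_zero]
    have h2 := phi_eval a v (fun j => x1 j - a j) P 0 1 y
    rw [h0, Polynomial.eval₂_zero] at h2
    rw [h2]
    congr 2
    funext j
    ring
  have h2 := congrArg (MvPolynomial.coeff m) h1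
  rw [MvPolynomial.coeff_map, MvPolynomial.coeff_zero] at h2
  exact hx1 h2

/-- **one line is enough**: functions of several variables whose restrictions to a line are algebraically independent
over the rational functions are algebraically independent over the rational functions of all variables -/
theorem indep_of_line {U : Set (X → ℂ)} (hUo : IsOpen U) {f : σ → (X → ℂ) → ℂ}
    (hf : ∀ i, AnalyticOnNhd ℂ (f i) U) {a v : X → ℂ} {t0 : ℂ} (ha : (fun j => a j + t0 * v j) ∈ U)
    (h : Y124.LocInd (fun i (t : ℂ) => f i fun j => a j + t * v j) t0) : IndepM U f := by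
  intro P hP
  by_contra hne
  obtain ⟨w, hw⟩ := phi_ne hne a v
  set Q := phi a v w P with hQ
  obtain ⟨Q', hQ', hnd⟩ := Polynomial.exists_eq_pow_rootMultiplicity_mul_and_not_dvd Q hw 0
  rw [map_zero, sub_zero] at hQ' hnd
  rw [Polynomial.X_dvd_iff] at hnd
  set r := Polynomial.rootMultiplicity 0 Q with hr
  apply hnd
  apply h
  -- the points near the line
  have hcont : Continuous fun p : ℂ × ℂ => fun j => a j + p.1 * v j + p.2 * w j := by fun_prop
  have hm0 : (fun j => a j + t0 * v j + 0 * w j) ∈ U := by
    have : (fun j => a j + t0 * v j + 0 * w j) = fun j => a j + t0 * v j := by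
      funext j
      ring
    rw [this]
    exact ha
  have hmem : ∀ᶠ p : ℂ × ℂ in 𝓝 (t0, 0), (fun j => a j + p.1 * v j + p.2 * w j) ∈ U :=
    (hcont.continuousAt (x := (t0, 0))).preimage_mem_nhds (hUo.mem_nhds hm0)
  have hmem2 : ∀ᶠ t : ℂ in 𝓝 t0, ∀ᶠ e : ℂ in 𝓝 (0 : ℂ), (fun j => a j + t * v j + e * w j) ∈ U := by
    rw [nhds_prod_eq] at hmem
    exact hmem.curry
  filter_upwards [hmem2] with t ht
  -- the quotient vanishes for nonzero `e`
  have hev : ∀ᶠ e : ℂ in 𝓝[≠] (0 : ℂ),
      Polynomial.eval₂ (MvPolynomial.eval fun o : Option σ => o.elim t fun i => f i fun j => a j + t * v j + e * w j) e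
        Q' = 0 := by
    filter_upwards [ht.filter_mono nhdsWithin_le_nhds, self_mem_nhdsWithin] with e he hne0
    have h1 := hP _ he
    have h2 := phi_eval a v w P t e (fun i => f i fun j => a j + t * v j + e * w j)
    rw [← hQ, hQ', Polynomial.eval₂_mul, Polynomial.eval₂_pow, Polynomial.eval₂_X] at h2
    have h3 : e ^ r * Polynomial.eval₂ (MvPolynomial.eval fun o : Option σ => o.elim t
        fun i => f i fun j => a j + t * v j + e * w j) e Q' = 0 := h2.trans h1
    exact (mul_eq_zero.1 h3).resolve_left (pow_ne_zero _ hne0)
  -- the limit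
  have hc : ContinuousAt (fun e : ℂ => Polynomial.eval₂ (MvPolynomial.eval fun o : Option σ => o.elim t
      fun i => f i fun j => a j + t * v j + e * w j) e Q') 0 := by
    have h1 : (fun e : ℂ => Polynomial.eval₂ (MvPolynomial.eval fun o : Option σ => o.elim t
        fun i => f i fun j => a j + t * v j + e * w j) e Q') = fun e => ∑ n ∈ Finset.range (Q'.natDegree + 1),
          (MvPolynomial.eval (fun o : Option σ => o.elim t fun i => f i fun j => a j + t * v j + e * w j)
            (Q'.coeff n)) * e ^ n := by
      funext e
      rw [Polynomial.eval₂_eq_sum_range]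
    rw [h1]
    have hmt : (fun j => a j + t * v j + 0 * w j) ∈ U := ht.self_of_nhds
    have hfc : ∀ i, ContinuousAt (fun e : ℂ => f i fun j => a j + t * v j + e * w j) 0 := by
      intro i
      have h2 : ContinuousAt (fun e : ℂ => (fun j => a j + t * v j + e * w j : X → ℂ)) 0 := by fun_prop
      exact ContinuousAt.comp (x := (0 : ℂ)) (g := f i) (hf i _ hmt).continuousAt h2
    have hsum : ∀ s : Finset ℕ, ContinuousAt (fun e : ℂ => ∑ n ∈ s,
          (MvPolynomial.eval (fun o : Option σ => o.elim t fun i => f i fun j => a j + t * v j + e * w j)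
            (Q'.coeff n)) * e ^ n) 0 := by
      intro s
      refine tendsto_finsetSum _ fun n _ => ContinuousAt.mul ?_ (by fun_prop)
      have h3 : (fun e : ℂ => MvPolynomial.eval (fun o : Option σ => o.elim t fun i => f i fun j => a j + t * v j + e * w j)
          (Q'.coeff n)) = fun e => ∑ d ∈ (Q'.coeff n).support, (Q'.coeff n).coeff d *
            ∏ o ∈ d.support, ((fun o : Option σ => o.elim t fun i => f i fun j => a j + t * v j + e * w j) o) ^ d o := by
        funext e
        rw [MvPolynomial.eval_eq]
      rw [h3]
      refine tendsto_finsetSum _ fun d _ => ContinuousAt.mul continuousAt_const ?_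
      refine tendsto_finsetProd _ fun o _ => ContinuousAt.pow ?_ _
      rcases o with _ | i
      · exact continuousAt_const
      · exact hfc i
    exact hsum _
  have hlim : Polynomial.eval₂ (MvPolynomial.eval fun o : Option σ => o.elim t
      fun i => f i fun j => a j + t * v j + 0 * w j) 0 Q' = 0 := by
    have h1 : Tendsto (fun e : ℂ => Polynomial.eval₂ (MvPolynomial.eval fun o : Option σ => o.elim t
        fun i => f i fun j => a j + t * v j + e * w j) e Q') (𝓝[≠] (0 : ℂ)) (𝓝 0) :=
      tendsto_const_nhds.congr' (hev.mono fun e he => he.symm)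
    exact tendsto_nhds_unique (hc.tendsto.mono_left nhdsWithin_le_nhds) h1
  have hfun : (fun i => f i fun j => a j + t * v j + 0 * w j) = fun i => f i fun j => a j + t * v j := by
    funext i
    congr 1
    funext j
    ring
  rw [hfun, Polynomial.eval₂_at_zero] at hlim
  exact hlim

end Pool.Agent.Q311.LN
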