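import Pool.Agent.Q311.LN.OrtA

/-!
# Independence of the coordinates of the symmetric spaces of orthogonal groups along families with dense monodromy
-/

set_option autoImplicit false

open Filter NumberField Matrix

namespace Pool.Agent.Q311.LN

open Pool.Agent.Q311.MV
open Pool.Agent.Y119.PLM (MT Ix IsMon)
open Pool.Agent.Y890.MV (evM)

/-- the coordinates of the first row of `Z` with respect to the frame `N` -/
noncomputable def crdO {r : ℕ} (Z N : Matrix (Fin (r + 2)) (Fin (r + 2)) ℂ) (b : Fin r) : ℂ :=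
  (Z * N) 0 (md b) / (Z * N) 0 0

/-- the size of the period matrices -/
abbrev szo {κ : Type} (r : κ → ℕ) (j : κ) : ℕ := r j + 2

/-- the places of the coordinates -/
abbrev PlcO {κ : Type} (r : κ → ℕ) : Type := (j : κ) × Fin (r j)

theorem cancel_frame {m : ℕ} {N P R : Matrix (Fin m) (Fin m) ℂ} (hN : N.det ≠ 0) (h : Nᵀ * P * N = Nᵀ * R * N) :
    P = R := by
  have h4 : IsUnit (Nᵀ).det := by
    rw [Matrix.det_transpose]
    exact isUnit_iff_ne_zero.2 hN
  have h5 : IsUnit N.det := isUnit_iff_ne_zero.2 hN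
  have h6 := congrArg (fun M => Nᵀ⁻¹ * M * N⁻¹) h
  simp only [← Matrix.mul_assoc] at h6
  simpa only [Matrix.nonsing_inv_mul _ h4, Matrix.one_mul, Matrix.mul_assoc, Matrix.mul_nonsing_inv _ h5,
    Matrix.mul_one] using h6

variable {X κ : Type} [Fintype X] [Fintype κ] [DecidableEq κ] {r : κ → ℕ}

/-- the denominator -/
noncomputable def denO (N : MT (szo r)) (j : κ) : MvPolynomial (Ix (szo r)) ℂ := gnn N j 0 0

/-- the numerator -/
noncomputable def numO (N : MT (szo r)) (j : κ) (b : Fin (r j)) : MvPolynomial (Ix (szo r)) ℂ := gnn N j 0 (md b)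

omit [Fintype κ] [DecidableEq κ] in
theorem denO_eval (N : MT (szo r)) (j : κ) (y : Ix (szo r) → ℂ) :
    MvPolynomial.eval y (denO N j) = (mat y j * N j) 0 0 := by
  unfold denO
  rw [← gnn_map, Matrix.map_apply]

omit [Fintype κ] [DecidableEq κ] in
theorem numO_eval (N : MT (szo r)) (j : κ) (b : Fin (r j)) (y : Ix (szo r) → ℂ) :
    MvPolynomial.eval y (numO N j b) = (mat y j * N j) 0 (md b) := by
  unfold numO
  rw [← gnn_map, Matrix.map_apply]

omit [Fintype κ] [DecidableEq κ] in
/-- the determinants of the period matrices are constant -/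
theorem ort_det {μ : κ → ℂ} {J : MT (szo r)} {U : Set (X → ℂ)} (hU : IsPreconnected U)
    (hne : U.Nonempty) {Y : (X → ℂ) → MT (szo r)} (hY : ∀ j a b, AnalyticOnNhd ℂ (fun x => Y x j a b) U)
    (hsym : ∀ x ∈ U, ∀ j, (Y x j)ᵀ * (μ j • Qst (r j + 2)) * Y x j = J j) {N : MT (szo r)}
    (hN : ∀ j, (N j)ᵀ * J j * N j = Qst (r j + 2)) :
    ∃ δ : κ → ℂ, (∀ j, δ j ≠ 0) ∧ (∀ x ∈ U, ∀ j, (Y x j).det = δ j) ∧
      ∀ j, μ j ^ (r j + 2) * (δ j * (N j).det) ^ 2 = 1 := by
  obtain ⟨x₀, hx₀⟩ := hne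
  have h1 : ∀ x ∈ U, ∀ j, (μ j ^ (r j + 2) * ((Y x j).det * (N j).det) ^ 2) = 1 := by
    intro x hx j
    have h2 := congrArg Matrix.det (hsym x hx j)
    have h3 := congrArg Matrix.det (hN j)
    rw [Matrix.det_mul, Matrix.det_mul, Matrix.det_transpose, Matrix.det_smul, Fintype.card_fin] at h2
    rw [Matrix.det_mul, Matrix.det_mul, Matrix.det_transpose] at h3
    apply mul_left_cancel₀ (Qst_det (r j + 2))
    rw [mul_one]
    linear_combination h3 + (N j).det ^ 2 * h2
  have hne0 : ∀ x ∈ U, ∀ j, (Y x j).det ≠ 0 := by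
    intro x hx j h0
    have := h1 x hx j
    rw [h0] at this
    simp at this
  refine ⟨fun j => (Y x₀ j).det, fun j => hne0 x₀ hx₀ j, fun x hx j => ?_, fun j => h1 x₀ hx₀ j⟩
  have hcont : ContinuousOn (fun x => (Y x j).det) U := by
    have h2 : ContinuousOn (fun x => Y x j) U := by
      refine continuousOn_pi.2 fun a => continuousOn_pi.2 fun b => (hY j a b).continuousOn
    exact (continuous_id.matrix_det).comp_continuousOn h2
  have hN0 : (N j).det ≠ 0 := by
    intro h0
    have := h1 x₀ hx₀ j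
    rw [h0] at this
    simp at this
  have hμ0 : μ j ^ (r j + 2) ≠ 0 := by
    intro h0
    have := h1 x₀ hx₀ j
    rw [h0] at this
    simp at this
  have hsq : Set.EqOn ((fun x => (Y x j).det) ^ 2) ((fun _ => (Y x₀ j).det) ^ 2) U := by
    intro y hy
    rw [Pi.pow_apply, Pi.pow_apply]
    have h3 := (h1 y hy j).trans (h1 x₀ hx₀ j).symm
    have h4 := mul_left_cancel₀ hμ0 h3
    rw [mul_pow, mul_pow] at h4
    exact mul_right_cancel₀ (pow_ne_zero 2 hN0) h4
  rcases hU.eq_or_eq_neg_of_sq_eq hcont continuousOn_const hsq (fun _ => hne0 x₀ hx₀ j) with h5 | h5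
  · exact h5 hx
  · exfalso
    have h6 := h5 hx₀
    rw [Pi.neg_apply] at h6
    have h7 : (Y x₀ j).det = 0 := by
      have h8 : (Y x₀ j).det = -(Y x₀ j).det := h6
      linear_combination h8 / 2
    exact hne0 x₀ hx₀ j h7

/-- **Independence of the coordinates.** -/
theorem ortho_indep {μ : κ → ℂ} (hμ : ∀ j, μ j ≠ 0) {J : MT (szo r)} {U : Set (X → ℂ)} (hU : IsPreconnected U)
    (hUo : IsOpen U) (hne : U.Nonempty) {Y : (X → ℂ) → MT (szo r)}
    (hY : ∀ j a b, AnalyticOnNhd ℂ (fun x => Y x j a b) U) (hr : ∀ j, 0 < r j)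
    (hsym : ∀ x ∈ U, ∀ j, (Y x j)ᵀ * (μ j • Qst (r j + 2)) * Y x j = J j)
    (hD : DenseIn U Y {g | ∀ j, (g j)ᵀ * J j * g j = J j ∧ (g j).det = 1}) {N : MT (szo r)}
    (hN : ∀ j, (N j)ᵀ * J j * N j = Qst (r j + 2)) (hch : ∀ x ∈ U, ∀ j, (Y x j * N j) 0 0 ≠ 0) :
    IndepM U (fun (i : PlcO r) x => crdO (Y x i.1) (N i.1) i.2) ∧
    ∀ i : PlcO r, AnalyticOnNhd ℂ (fun x => crdO (Y x i.1) (N i.1) i.2) U := by
  classical
  obtain ⟨δ, hδ0, hdY, hδ⟩ := ort_det hU hne hY hsym hN
  have hNd : ∀ j, (N j).det ≠ 0 := by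
    intro j h0
    have := hδ j
    rw [h0] at this
    simp at this
  let f : Ix (szo r) → (X → ℂ) → ℂ := fun i x => Y x i.1 i.2.1 i.2.2
  let den : MvPolynomial (Ix (szo r)) ℂ := ∏ j, denO N j
  let num : PlcO r → MvPolynomial (Ix (szo r)) ℂ := fun i =>
    numO N i.1 i.2 * ∏ j ∈ Finset.univ.erase i.1, denO N j
  have hmat : ∀ x j, mat (fun i => f i x) j = Y x j := fun x j => rfl
  have hden : ∀ x ∈ U, MvPolynomial.eval (fun i => f i x) den ≠ 0 := by
    intro x hx
    rw [map_prod]
    refine Finset.prod_ne_zero_iff.2 fun j _ => ?_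
    rw [denO_eval]
    exact hch x hx j
  have hquot : ∀ (i : PlcO r) (y : Ix (szo r) → ℂ), (∀ j, (mat y j * N j) 0 0 ≠ 0) →
      MvPolynomial.eval y (num i) / MvPolynomial.eval y den = crdO (mat y i.1) (N i.1) i.2 := by
    intro i y hy
    have h1 : MvPolynomial.eval y den = MvPolynomial.eval y (denO N i.1) *
        MvPolynomial.eval y (∏ j ∈ Finset.univ.erase i.1, denO N j) := by
      rw [← map_mul]
      congr 1
      exact (Finset.mul_prod_erase _ _ (Finset.mem_univ _)).symm
    have h2 : MvPolynomial.eval y (∏ j ∈ Finset.univ.erase i.1, denO N j) ≠ 0 := by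
      rw [map_prod]
      refine Finset.prod_ne_zero_iff.2 fun j _ => ?_
      rw [denO_eval]
      exact hy j
    rw [h1]
    change MvPolynomial.eval y (_ * _) / _ = _
    rw [map_mul, mul_div_mul_right _ _ h2, numO_eval, denO_eval, crdO]
  constructor
  · have h1 := indep_ratio (f := f) hUo hne
      (S := {y | ∀ j, (mat y j)ᵀ * (μ j • Qst (r j + 2)) * mat y j = J j ∧ (mat y j).det = δ j})
      (fun Q hQ x hx y hy => dns_inv (G := {g | ∀ j, (g j)ᵀ * J j * g j = J j ∧ (g j).det = 1}) hU hY hD Q hQ hx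
        (fun j => by rw [hdY x hx j]; exact hδ0 j) (fun j => by
          constructor
          · have h1 : Y x j * ((Y x j)⁻¹ * mat y j) = mat y j := by
              rw [← Matrix.mul_assoc, mul_nonsing_inv _ (isUnit_iff_ne_zero.2 (by rw [hdY x hx j]; exact hδ0 j)),
                Matrix.one_mul]
            calc ((Y x j)⁻¹ * mat y j)ᵀ * J j * ((Y x j)⁻¹ * mat y j)
                = ((Y x j)⁻¹ * mat y j)ᵀ * ((Y x j)ᵀ * (μ j • Qst (r j + 2)) * Y x j) *
                    ((Y x j)⁻¹ * mat y j) := by rw [hsym x hx j]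
              _ = (Y x j * ((Y x j)⁻¹ * mat y j))ᵀ * (μ j • Qst (r j + 2)) *
                    (Y x j * ((Y x j)⁻¹ * mat y j)) := by
                rw [transpose_mul (Y x j)]
                simp only [Matrix.mul_assoc]
              _ = J j := by rw [h1, (hy j).1]
          · rw [Matrix.det_mul, Matrix.det_nonsing_inv, hdY x hx j, (hy j).2, Ring.inverse_eq_inv']
            exact inv_mul_cancel₀ (hδ0 j))) num den hden (q := 1) one_ne_zero ?_
    · intro P hP
      refine h1 P fun x hx => ?_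
      rw [← hP x hx]
      unfold evM
      congr 1
      funext i
      exact hquot i (fun i => f i x) (fun j => hch x hx j)
    · intro w _
      choose B hB1 hB2 hB3 hB4 using fun j => exists_ort (hr j) (hμ j) (hδ j) (fun b => w ⟨j, b⟩)
      let A : MT (szo r) := fun j => B j * (N j)⁻¹
      have hA : ∀ j, A j * N j = B j := by
        intro j
        change B j * (N j)⁻¹ * N j = _
        rw [Matrix.mul_assoc, Matrix.nonsing_inv_mul _ (isUnit_iff_ne_zero.2 (hNd j)), Matrix.mul_one]
      have hAd : ∀ j, (A j).det = δ j := by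
        intro j
        have h2 := congrArg Matrix.det (hA j)
        rw [Matrix.det_mul, hB2] at h2
        exact mul_right_cancel₀ (hNd j) h2
      have hAs : ∀ j, (A j)ᵀ * (μ j • Qst (r j + 2)) * A j = J j := by
        intro j
        apply cancel_frame (hNd j)
        have h7 : (N j)ᵀ * ((A j)ᵀ * (μ j • Qst (r j + 2)) * A j) * N j =
            (A j * N j)ᵀ * (μ j • Qst (r j + 2)) * (A j * N j) := by
          rw [Matrix.transpose_mul (A j)]
          simp only [Matrix.mul_assoc]
        rw [h7, hA j, hB1 j, hN j]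
      have hy : ∀ j, mat (fun i : Ix (szo r) => A i.1 i.2.1 i.2.2) j = A j := fun j => rfl
      have hd1 : ∀ j, (mat (fun i : Ix (szo r) => A i.1 i.2.1 i.2.2) j * N j) 0 0 ≠ 0 := by
        intro j
        rw [hy, hA, hB3]
        exact one_ne_zero
      have h3 : MvPolynomial.eval (fun i : Ix (szo r) => A i.1 i.2.1 i.2.2) den ≠ 0 := by
        rw [map_prod]
        refine Finset.prod_ne_zero_iff.2 fun j _ => ?_
        rw [denO_eval]
        exact hd1 j
      refine ⟨fun i => A i.1 i.2.1 i.2.2, fun j => ⟨?_, ?_⟩, h3, fun i => ?_⟩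
      · rw [hy]
        exact hAs j
      · rw [hy]
        exact hAd j
      · have h2 := hquot i _ hd1
        rw [div_eq_iff h3] at h2
        rw [h2]
        congr 1
        rw [hy, crdO, hA, hB3, hB4, div_one]
  · intro i
    have hf : ∀ k, AnalyticOnNhd ℂ (f k) U := fun k => hY k.1 k.2.1 k.2.2
    have h1 : AnalyticOnNhd ℂ (fun x => MvPolynomial.eval (fun k => f k x) (num i) /
        MvPolynomial.eval (fun k => f k x) den) U := fun x hx =>
      (evc_an hf (num i) x hx).fun_div (evc_an hf den x hx) (hden x hx)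
    intro x hx
    refine (h1 x hx).congr ?_
    filter_upwards [hUo.mem_nhds hx] with t ht
    exact hquot i _ (fun j => hch t ht j)

end Pool.Agent.Q311.LN
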