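import Pool.Agent.Q311.LN.Dns

/-!
# Orthogonal matrices with a given first row
-/

set_option autoImplicit false

open Matrix

namespace Pool.Agent.Q311.LN

/-- the split symmetric form: the antidiagonal matrix -/
def Qst (m : ℕ) : Matrix (Fin m) (Fin m) ℂ := fun a b => if b = Fin.rev a then 1 else 0

/-- the middle indices -/
def md {r : ℕ} (b : Fin r) : Fin (r + 2) := b.castSucc.succ

theorem rev_md {r : ℕ} (b : Fin r) : Fin.rev (md b) = md (Fin.rev b) := by
  unfold md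
  rw [Fin.rev_succ, Fin.rev_castSucc, Fin.succ_castSucc]

theorem Qst_mul_apply {m : ℕ} {R : Type} [Fintype R] (M : Matrix (Fin m) R ℂ) (a : Fin m) (b : R) :
    (Qst m * M) a b = M (Fin.rev a) b := by
  rw [Matrix.mul_apply]
  unfold Qst
  simp

theorem mul_Qst_apply {m : ℕ} {R : Type} [Fintype R] (M : Matrix R (Fin m) ℂ) (a : R) (b : Fin m) :
    (M * Qst m) a b = M a (Fin.rev b) := by
  rw [Matrix.mul_apply]
  have : ∀ x, M a x * Qst m x b = if x = Fin.rev b then M a x else 0 := by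
    intro x
    unfold Qst
    by_cases h : x = Fin.rev b
    · subst h
      simp
    · have : b ≠ Fin.rev x := by
        intro h'
        exact h (by rw [h', Fin.rev_rev])
      simp [h, this]
  rw [Finset.sum_congr rfl fun x _ => this x]
  simp

theorem Qst_sq (m : ℕ) : Qst m * Qst m = 1 := by
  ext a b
  rw [Qst_mul_apply, Matrix.one_apply]
  unfold Qst
  rw [Fin.rev_rev]
  simp [eq_comm]

theorem Qst_transpose (m : ℕ) : (Qst m)ᵀ = Qst m := by
  ext a b
  rw [Matrix.transpose_apply]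
  unfold Qst
  congr 1
  rw [eq_iff_iff]
  constructor
  · intro h
    rw [h, Fin.rev_rev]
  · intro h
    rw [h, Fin.rev_rev]

theorem Qst_det (m : ℕ) : (Qst m).det ≠ 0 := by
  intro h
  have h1 := congrArg Matrix.det (Qst_sq m)
  rw [Matrix.det_mul, h, zero_mul, Matrix.det_one] at h1
  exact zero_ne_one h1

/-- rows -/
def vec3 {r : ℕ} (x : ℂ) (w : Fin r → ℂ) (z : ℂ) : Fin (r + 2) → ℂ :=
  Fin.cons x (Fin.snoc (α := fun _ : Fin (r + 1) => ℂ) w z)

theorem vec3_zero {r : ℕ} (x : ℂ) (w : Fin r → ℂ) (z : ℂ) : vec3 x w z 0 = x := rfl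

theorem vec3_md {r : ℕ} (x : ℂ) (w : Fin r → ℂ) (z : ℂ) (b : Fin r) : vec3 x w z (md b) = w b := by
  unfold vec3 md
  rw [Fin.cons_succ, Fin.snoc_castSucc (α := fun _ : Fin (r + 1) => ℂ)]

theorem vec3_last {r : ℕ} (x : ℂ) (w : Fin r → ℂ) (z : ℂ) : vec3 x w z (Fin.last (r + 1)) = z := by
  unfold vec3
  rw [← Fin.succ_last, Fin.cons_succ, Fin.snoc_last (α := fun _ : Fin (r + 1) => ℂ)]

theorem bil_vec3 {r : ℕ} (x x' : ℂ) (w w' : Fin r → ℂ) (z z' : ℂ) :
    ∑ a, vec3 x w z a * vec3 x' w' z' (Fin.rev a) = x * z' + z * x' + ∑ b, w b * w' (Fin.rev b) := by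
  rw [Fin.sum_univ_succ, Fin.sum_univ_castSucc]
  have h1 : ∀ b : Fin r, vec3 x w z b.castSucc.succ * vec3 x' w' z' (Fin.rev b.castSucc.succ) =
      w b * w' (Fin.rev b) := by
    intro b
    change vec3 x w z (md b) * vec3 x' w' z' (Fin.rev (md b)) = _
    rw [rev_md, vec3_md, vec3_md]
  rw [Finset.sum_congr rfl fun b _ => h1 b, Fin.succ_last, vec3_zero, vec3_last, Fin.rev_zero, Fin.rev_last,
    vec3_zero, vec3_last]
  ring

/-- the value of the quadratic form -/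
noncomputable def qf {r : ℕ} (w : Fin r → ℂ) : ℂ := ∑ b, w b * w (Fin.rev b)

/-- the rows of the unipotent matrix -/
noncomputable def urow {r : ℕ} (w : Fin r → ℂ) (ν : ℂ) (a : Fin (r + 2)) : Fin (r + 2) → ℂ :=
  Fin.cases (motive := fun _ => Fin (r + 2) → ℂ) (vec3 1 w (-(qf w / 2)))
    (fun b => Fin.lastCases (motive := fun _ => Fin (r + 2) → ℂ) (vec3 0 0 (ν ^ 2))
      (fun b => vec3 0 (Pi.single b ν) (-(ν * w (Fin.rev b)))) b) a

/-- the unipotent matrix -/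
noncomputable def unip {r : ℕ} (w : Fin r → ℂ) (ν : ℂ) : Matrix (Fin (r + 2)) (Fin (r + 2)) ℂ :=
  fun a => urow w ν a

theorem unip_zero {r : ℕ} (w : Fin r → ℂ) (ν : ℂ) : unip w ν 0 = vec3 1 w (-(qf w / 2)) := rfl

theorem unip_md {r : ℕ} (w : Fin r → ℂ) (ν : ℂ) (b : Fin r) :
    unip w ν (md b) = vec3 0 (Pi.single b ν) (-(ν * w (Fin.rev b))) := by
  change urow w ν (md b) = _
  unfold urow md
  rw [Fin.cases_succ, Fin.lastCases_castSucc]

theorem unip_last {r : ℕ} (w : Fin r → ℂ) (ν : ℂ) : unip w ν (Fin.last (r + 1)) = vec3 0 0 (ν ^ 2) := by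
  change urow w ν _ = _
  unfold urow
  rw [← Fin.succ_last, Fin.cases_succ, Fin.lastCases_last]

theorem fin3 {r : ℕ} {P : Fin (r + 2) → Prop} (h0 : P 0) (h1 : ∀ b, P (md b)) (h2 : P (Fin.last (r + 1))) :
    ∀ a, P a := by
  intro a
  induction a using Fin.cases with
  | zero => exact h0
  | succ b =>
    induction b using Fin.lastCases with
    | last =>
      rw [Fin.succ_last]
      exact h2
    | cast c => exact h1 c

theorem md_ne_zero {r : ℕ} (b : Fin r) : md b ≠ 0 := Fin.succ_ne_zero _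

theorem md_ne_last {r : ℕ} (b : Fin r) : md b ≠ Fin.last (r + 1) := by
  unfold md
  rw [← Fin.succ_last]
  intro h
  exact (Fin.castSucc_lt_last b).ne (Fin.succ_injective _ h)

theorem md_inj {r : ℕ} {b c : Fin r} (h : md b = md c) : b = c :=
  Fin.castSucc_injective _ (Fin.succ_injective _ h)

/-- the rows are orthogonal -/
theorem unip_rows {r : ℕ} (w : Fin r → ℂ) (ν : ℂ) (a c : Fin (r + 2)) :
    ∑ d, unip w ν a d * unip w ν c (Fin.rev d) = ν ^ 2 * Qst (r + 2) a c := by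
  revert c
  revert a
  have hs : ∀ (b : Fin r) (v : Fin r → ℂ), ∑ d, (Pi.single b ν : Fin r → ℂ) d * v (Fin.rev d) = ν * v (Fin.rev b) := by
    intro b v
    rw [Finset.sum_eq_single b]
    · rw [Pi.single_eq_same]
    · intro d _ hd
      rw [Pi.single_eq_of_ne hd, zero_mul]
    · intro h
      exact absurd (Finset.mem_univ _) h
  have hl : ∀ (b : Fin r) (v : Fin r → ℂ), ∑ d, v d * (Pi.single b ν : Fin r → ℂ) (Fin.rev d) = v (Fin.rev b) * ν := by
    intro b v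
    rw [Finset.sum_eq_single (Fin.rev b)]
    · rw [Fin.rev_rev, Pi.single_eq_same]
    · intro d _ hd
      rw [Pi.single_eq_of_ne (fun h => hd (by rw [← h, Fin.rev_rev])), mul_zero]
    · intro h
      exact absurd (Finset.mem_univ _) h
  refine fin3 (fin3 ?_ (fun b => ?_) ?_) (fun b => fin3 ?_ (fun c => ?_) ?_) (fin3 ?_ (fun b => ?_) ?_)
  · rw [unip_zero, bil_vec3]
    unfold Qst
    rw [Fin.rev_zero, if_neg (by simp [Fin.ext_iff]), mul_zero]
    change _ + _ + qf w = 0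
    ring
  · rw [unip_zero, unip_md, bil_vec3, hl]
    unfold Qst
    rw [Fin.rev_zero, if_neg (md_ne_last b)]
    ring
  · rw [unip_zero, unip_last, bil_vec3]
    unfold Qst
    rw [Fin.rev_zero, if_pos rfl]
    simp
  · rw [unip_zero, unip_md, bil_vec3, hs]
    unfold Qst
    rw [rev_md, if_neg (md_ne_zero _).symm]
    ring
  · rw [unip_md, unip_md, bil_vec3, hs]
    unfold Qst
    rw [rev_md]
    by_cases h : c = Fin.rev b
    · rw [if_pos (by rw [h]), h, Pi.single_eq_same]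
      ring
    · rw [if_neg (fun h' => h (md_inj h')), Pi.single_eq_of_ne (Ne.symm h)]
      ring
  · rw [unip_md, unip_last, bil_vec3]
    unfold Qst
    rw [rev_md, if_neg (md_ne_last _).symm]
    simp
  · rw [unip_zero, unip_last, bil_vec3]
    unfold Qst
    rw [Fin.rev_last, if_pos rfl]
    simp
  · rw [unip_md, unip_last, bil_vec3]
    unfold Qst
    rw [Fin.rev_last, if_neg (md_ne_zero _)]
    simp
  · rw [unip_last, bil_vec3]
    unfold Qst
    rw [Fin.rev_last, if_neg (by simp [Fin.ext_iff])]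
    simp

theorem mul_Qst_transpose {m : ℕ} (B : Matrix (Fin m) (Fin m) ℂ) (a c : Fin m) :
    (B * Qst m * Bᵀ) a c = ∑ d, B a d * B c (Fin.rev d) := by
  rw [Matrix.mul_apply]
  simp only [mul_Qst_apply, Matrix.transpose_apply]
  rw [← Equiv.sum_comp Fin.revPerm]
  simp [Fin.rev_rev]

/-- from rows to columns -/
theorem col_of_row {m : ℕ} {B : Matrix (Fin m) (Fin m) ℂ} {t : ℂ} (ht : t ≠ 0) (h : B * Qst m * Bᵀ = t • Qst m) :
    Bᵀ * Qst m * B = t • Qst m := by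
  have h1 : B * (t⁻¹ • (Qst m * Bᵀ * Qst m)) = 1 := by
    rw [Matrix.mul_smul, ← Matrix.mul_assoc, ← Matrix.mul_assoc, h, Matrix.smul_mul, Qst_sq, smul_smul,
      inv_mul_cancel₀ ht, one_smul]
  have h2 : (t⁻¹ • (Qst m * Bᵀ * Qst m)) * B = 1 := mul_eq_one_comm.1 h1
  rw [Matrix.smul_mul] at h2
  have h3 : Qst m * Bᵀ * Qst m * B = t • (1 : Matrix (Fin m) (Fin m) ℂ) := by
    rw [← h2, smul_smul, mul_inv_cancel₀ ht, one_smul]
  have h4 := congrArg (fun M => Qst m * M) h3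
  simp only [← Matrix.mul_assoc, Qst_sq, Matrix.one_mul, Matrix.mul_smul, Matrix.mul_one] at h4
  exact h4

/-- the reflection in the sum of the middle vectors -/
noncomputable def rfl0 (r : ℕ) : Matrix (Fin (r + 2)) (Fin (r + 2)) ℂ :=
  1 + Matrix.replicateCol Unit (vec3 (r := r) 0 (fun _ => 1) 0) *
    Matrix.replicateRow Unit (vec3 (r := r) 0 (fun _ => -(2 / (r : ℂ))) 0)

theorem rfl0_det {r : ℕ} (hr : 0 < r) : (rfl0 r).det = -1 := by
  unfold rfl0
  rw [Matrix.det_one_add_replicateCol_mul_replicateRow]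
  have h1 : vec3 (r := r) 0 (fun _ => -(2 / (r : ℂ))) 0 ⬝ᵥ vec3 (r := r) 0 (fun _ => 1) 0 = -2 := by
    have h2 : vec3 (r := r) 0 (fun _ => -(2 / (r : ℂ))) 0 ⬝ᵥ vec3 (r := r) 0 (fun _ => 1) 0 =
        ∑ a, vec3 (r := r) 0 (fun _ => -(2 / (r : ℂ))) 0 a * vec3 (r := r) 0 (fun _ => 1) 0 (Fin.rev a) := by
      have hk : ∀ a, vec3 (r := r) 0 (fun _ => 1) 0 a = vec3 (r := r) 0 (fun _ => 1) 0 (Fin.rev a) := by
        refine fin3 ?_ (fun b => ?_) ?_
        · rw [Fin.rev_zero, vec3_zero, vec3_last]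
        · rw [rev_md, vec3_md, vec3_md]
        · rw [Fin.rev_last, vec3_zero, vec3_last]
      unfold dotProduct
      refine Finset.sum_congr rfl fun a _ => ?_
      rw [hk a]
    rw [h2, bil_vec3]
    simp only [mul_one, zero_mul, add_zero, zero_add, Finset.sum_const, Finset.card_univ, Fintype.card_fin,
      nsmul_eq_mul]
    have : (r : ℂ) ≠ 0 := Nat.cast_ne_zero.2 hr.ne'
    field_simp
  rw [h1]
  norm_num

theorem rfl0_apply (r : ℕ) (a b : Fin (r + 2)) : rfl0 r a b = (1 : Matrix (Fin (r + 2)) (Fin (r + 2)) ℂ) a b +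
    vec3 (r := r) 0 (fun _ => 1) 0 a * vec3 (r := r) 0 (fun _ => -(2 / (r : ℂ))) 0 b := by
  unfold rfl0
  rw [Matrix.add_apply, Matrix.mul_apply]
  simp

theorem rfl0_zero {r : ℕ} (M : Matrix (Fin (r + 2)) (Fin (r + 2)) ℂ) : (rfl0 r * M) 0 = M 0 := by
  funext b
  rw [Matrix.mul_apply]
  simp only [rfl0_apply, vec3_zero, zero_mul, add_zero]
  simp [Matrix.one_apply]

theorem rfl0_rows {r : ℕ} (hr : 0 < r) : rfl0 r * Qst (r + 2) * (rfl0 r)ᵀ = Qst (r + 2) := by
  ext a c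
  rw [mul_Qst_transpose]
  set u : Fin (r + 2) → ℂ := vec3 (r := r) 0 (fun _ => 1) 0 with hu
  set v : Fin (r + 2) → ℂ := vec3 (r := r) 0 (fun _ => -(2 / (r : ℂ))) 0 with hv
  have hvu : ∀ a, v a = -(2 / (r : ℂ)) * u a := by
    refine fin3 ?_ (fun b => ?_) ?_
    · rw [hv, hu, vec3_zero, vec3_zero, mul_zero]
    · rw [hv, hu, vec3_md, vec3_md, mul_one]
    · rw [hv, hu, vec3_last, vec3_last, mul_zero]
  have hur : ∀ a, u (Fin.rev a) = u a := by
    refine fin3 ?_ (fun b => ?_) ?_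
    · rw [Fin.rev_zero, hu, vec3_zero, vec3_last]
    · rw [rev_md, hu, vec3_md, vec3_md]
    · rw [Fin.rev_last, hu, vec3_zero, vec3_last]
  have hvv : ∑ d, v d * v (Fin.rev d) = 4 / (r : ℂ) := by
    rw [hv, bil_vec3]
    simp only [mul_zero, add_zero, zero_add, Finset.sum_const, Finset.card_univ, Fintype.card_fin,
      nsmul_eq_mul]
    have : (r : ℂ) ≠ 0 := Nat.cast_ne_zero.2 hr.ne'
    field_simp
    norm_num
  have hvr : ∀ a, v (Fin.rev a) = v a := fun a => by rw [hvu, hvu, hur]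
  have h1 : ∀ d, rfl0 r a d * rfl0 r c (Fin.rev d) =
      (1 : Matrix (Fin (r + 2)) (Fin (r + 2)) ℂ) a d * (1 : Matrix (Fin (r + 2)) (Fin (r + 2)) ℂ) c (Fin.rev d) +
      u c * ((1 : Matrix (Fin (r + 2)) (Fin (r + 2)) ℂ) a d * v d) +
      u a * ((1 : Matrix (Fin (r + 2)) (Fin (r + 2)) ℂ) c (Fin.rev d) * v d) +
      u a * u c * (v d * v (Fin.rev d)) := by
    intro d
    rw [rfl0_apply, rfl0_apply, ← hu, ← hv, hvr]
    ring
  have h4 : ∀ f : Fin (r + 2) → ℂ, ∑ d, (1 : Matrix (Fin (r + 2)) (Fin (r + 2)) ℂ) c (Fin.rev d) * f d =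
      f (Fin.rev c) := by
    intro f
    rw [Finset.sum_eq_single (Fin.rev c)]
    · rw [Fin.rev_rev, Matrix.one_apply_eq, one_mul]
    · intro d _ hd
      rw [Matrix.one_apply_ne (fun h => hd (by rw [h, Fin.rev_rev])), zero_mul]
    · intro h
      exact absurd (Finset.mem_univ _) h
  rw [Finset.sum_congr rfl fun d _ => h1 d, Finset.sum_add_distrib, Finset.sum_add_distrib, Finset.sum_add_distrib,
    ← Finset.mul_sum, ← Finset.mul_sum, ← Finset.mul_sum, hvv, h4]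
  have h5 : ∑ d, (1 : Matrix (Fin (r + 2)) (Fin (r + 2)) ℂ) a d *
      (1 : Matrix (Fin (r + 2)) (Fin (r + 2)) ℂ) c (Fin.rev d) = Qst (r + 2) a c := by
    rw [Finset.sum_congr rfl fun d _ => mul_comm _ _, h4]
    unfold Qst
    rw [Matrix.one_apply]
    congr 1
    rw [eq_iff_iff]
    constructor
    · intro h
      rw [h, Fin.rev_rev]
    · intro h
      rw [h, Fin.rev_rev]
  have h6 : ∑ d, (1 : Matrix (Fin (r + 2)) (Fin (r + 2)) ℂ) a d * v d = v a := by
    simp [Matrix.one_apply]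
  rw [h5, h6, hvr, hvu a, hvu c]
  have : (r : ℂ) ≠ 0 := Nat.cast_ne_zero.2 hr.ne'
  field_simp
  ring

/-- **Existence**: there is a matrix with given first row, `Bᵀ (μ Q) B = Q` and given determinant `δ`, `δ ^ 2 μ ^ m = 1` -/
theorem exists_ort {r : ℕ} (hr : 0 < r) {μ δ : ℂ} (hμ : μ ≠ 0) (hδ : μ ^ (r + 2) * δ ^ 2 = 1) (w : Fin r → ℂ) :
    ∃ B : Matrix (Fin (r + 2)) (Fin (r + 2)) ℂ, Bᵀ * (μ • Qst (r + 2)) * B = Qst (r + 2) ∧ B.det = δ ∧
      B 0 0 = 1 ∧ ∀ b, B 0 (md b) = w b := by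
  obtain ⟨ν, hν⟩ := IsAlgClosed.exists_pow_nat_eq (μ⁻¹) (n := 2) (by norm_num)
  have hν0 : ν ^ 2 ≠ 0 := by
    rw [hν]
    exact inv_ne_zero hμ
  have h1 : (unip w ν) * Qst (r + 2) * (unip w ν)ᵀ = ν ^ 2 • Qst (r + 2) := by
    ext a c
    rw [mul_Qst_transpose, unip_rows, Matrix.smul_apply, smul_eq_mul]
  have h2 := col_of_row hν0 h1
  have h3 : (unip w ν)ᵀ * (μ • Qst (r + 2)) * unip w ν = Qst (r + 2) := by
    rw [Matrix.mul_smul, Matrix.smul_mul, h2, smul_smul, hν, mul_inv_cancel₀ hμ, one_smul]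
  have h4 : (rfl0 r)ᵀ * (μ • Qst (r + 2)) * rfl0 r = μ • Qst (r + 2) := by
    have h5 := col_of_row (t := 1) one_ne_zero (B := rfl0 r) (by rw [rfl0_rows hr, one_smul])
    rw [one_smul] at h5
    rw [Matrix.mul_smul, Matrix.smul_mul, h5]
  have hQd := Qst_det (r + 2)
  have h5 : (unip w ν).det ^ 2 * μ ^ (r + 2) = 1 := by
    have h6 := congrArg Matrix.det h3
    rw [Matrix.det_mul, Matrix.det_mul, Matrix.det_transpose, Matrix.det_smul, Fintype.card_fin] at h6
    have h7 : (Qst (r + 2)).det * ((unip w ν).det ^ 2 * μ ^ (r + 2)) = (Qst (r + 2)).det * 1 := by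
      linear_combination h6
    exact mul_left_cancel₀ hQd h7
  have h6 : (unip w ν).det = δ ∨ (unip w ν).det = -δ := by
    apply sq_eq_sq_iff_eq_or_eq_neg.1
    have h8 : μ ^ (r + 2) ≠ 0 := pow_ne_zero _ hμ
    apply mul_left_cancel₀ h8
    rw [hδ, ← h5, mul_comm]
  rcases h6 with h6 | h6
  · refine ⟨unip w ν, h3, h6, ?_, fun b => ?_⟩
    · rw [unip_zero, vec3_zero]
    · rw [unip_zero, vec3_md]
  · refine ⟨rfl0 r * unip w ν, ?_, ?_, ?_, fun b => ?_⟩
    · rw [Matrix.transpose_mul]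
      have h9 : (unip w ν)ᵀ * (rfl0 r)ᵀ * (μ • Qst (r + 2)) * (rfl0 r * unip w ν) =
          (unip w ν)ᵀ * ((rfl0 r)ᵀ * (μ • Qst (r + 2)) * rfl0 r) * unip w ν := by
        simp only [Matrix.mul_assoc]
      rw [h9, h4, h3]
    · rw [Matrix.det_mul, rfl0_det hr, h6]
      ring
    · rw [rfl0_zero, unip_zero, vec3_zero]
    · rw [rfl0_zero, unip_zero, vec3_md]

end Pool.Agent.Q311.LN
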