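import Pool.Agent.Q311.LN.Few

/-!
# Quotients of polynomials in functions with a given torsor
-/

set_option autoImplicit false

open Filter Topology

namespace Pool.Agent.Q311.LN

open Pool.Agent.Q311.MV Pool.Agent.Y890.MV

theorem poly_an {X : Type} [Fintype X] (p : MvPolynomial X ℂ) (x : X → ℂ) :
    AnalyticAt ℂ (fun x : X → ℂ => MvPolynomial.eval x p) x := by
  induction p using MvPolynomial.induction_on with
  | C c =>
    simp only [MvPolynomial.eval_C]
    exact analyticAt_const
  | add p q hp hq =>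
    simp only [map_add]
    exact hp.add hq
  | mul_X p n hp =>
    simp only [map_mul, MvPolynomial.eval_X]
    exact hp.mul ((ContinuousLinearMap.proj (R := ℂ) (φ := fun _ : X => ℂ) n).analyticAt x)

/-- a polynomial which vanishes on a nonempty open set is zero -/
theorem poly_zero {X : Type} [Fintype X] {U : Set (X → ℂ)} (hU : IsOpen U) (hne : U.Nonempty)
    {p : MvPolynomial X ℂ} (h : ∀ x ∈ U, MvPolynomial.eval x p = 0) : p = 0 := by
  obtain ⟨x₀, hx₀⟩ := hne
  have han : AnalyticOnNhd ℂ (fun x : X → ℂ => MvPolynomial.eval x p) Set.univ := fun x _ => poly_an p x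
  have h1 : (fun x : X → ℂ => MvPolynomial.eval x p) =ᶠ[𝓝 x₀] 0 := by
    filter_upwards [hU.mem_nhds hx₀] with x hx
    exact h x hx
  apply MvPolynomial.funext
  intro x
  rw [map_zero]
  exact han.eqOn_zero_of_preconnected_of_eventuallyEq_zero isPreconnected_univ (Set.mem_univ x₀) h1 (Set.mem_univ x)

variable {X σ κ : Type} [Fintype X]

/-- the numerator of `P (num / den)` -/
noncomputable def hom (num : κ → MvPolynomial σ ℂ) (den : MvPolynomial σ ℂ) (D : ℕ)
    (P : MvPolynomial κ (MvPolynomial X ℂ)) : MvPolynomial σ (MvPolynomial X ℂ) :=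
  ∑ m ∈ P.support, MvPolynomial.C (P.coeff m) *
    (m.prod fun k e => (MvPolynomial.map MvPolynomial.C (num k)) ^ e) *
      (MvPolynomial.map MvPolynomial.C den) ^ (D - m.sum fun _ e => e)

omit [Fintype X] in
theorem hom_eval (num : κ → MvPolynomial σ ℂ) (den : MvPolynomial σ ℂ) {D : ℕ}
    (P : MvPolynomial κ (MvPolynomial X ℂ)) (hD : P.totalDegree ≤ D) (x : X → ℂ) (y : σ → ℂ)
    (hy : MvPolynomial.eval y den ≠ 0) :
    MvPolynomial.eval₂ (MvPolynomial.eval x) y (hom num den D P) =
      MvPolynomial.eval y den ^ D *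
        MvPolynomial.eval₂ (MvPolynomial.eval x) (fun k => MvPolynomial.eval y (num k) / MvPolynomial.eval y den) P := by
  have hmap : ∀ q : MvPolynomial σ ℂ, MvPolynomial.eval₂ (MvPolynomial.eval x) y
      (MvPolynomial.map (MvPolynomial.C (σ := X)) q) = MvPolynomial.eval y q := by
    intro q
    rw [MvPolynomial.eval₂_map]
    have : (MvPolynomial.eval x).comp (MvPolynomial.C (σ := X)) = RingHom.id ℂ := by
      ext c
      simp
    rw [this]
    rfl
  rw [hom, MvPolynomial.eval₂_sum, MvPolynomial.eval₂_eq, Finset.mul_sum]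
  refine Finset.sum_congr rfl fun m hm => ?_
  rw [MvPolynomial.eval₂_mul, MvPolynomial.eval₂_mul, MvPolynomial.eval₂_C, MvPolynomial.eval₂_pow, hmap,
    Finsupp.prod, MvPolynomial.eval₂_prod]
  have hle : (m.sum fun _ e => e) ≤ D := (MvPolynomial.le_totalDegree hm).trans hD
  have h1 : MvPolynomial.eval y den ^ D =
      MvPolynomial.eval y den ^ (D - m.sum fun _ e => e) * MvPolynomial.eval y den ^ (m.sum fun _ e => e) := by
    rw [← pow_add, Nat.sub_add_cancel hle]
  have h2 : ∏ k ∈ m.support, MvPolynomial.eval₂ (MvPolynomial.eval x) y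
      ((MvPolynomial.map (MvPolynomial.C (σ := X)) (num k)) ^ m k) =
      MvPolynomial.eval y den ^ (m.sum fun _ e => e) *
        ∏ k ∈ m.support, (MvPolynomial.eval y (num k) / MvPolynomial.eval y den) ^ m k := by
    rw [Finsupp.sum, ← Finset.prod_pow_eq_pow_sum, ← Finset.prod_mul_distrib]
    refine Finset.prod_congr rfl fun k _ => ?_
    rw [MvPolynomial.eval₂_pow, hmap, ← mul_pow, mul_div_cancel₀ _ hy]
  rw [h2, h1]
  ring

/-- **quotients**: let `S x` be sets such that the relations between the `f` vanish on them; if the quotients `num / den`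
take (almost) all values on `S x`, then the functions `num (f) / den (f)` are independent -/
theorem indep_ratio {U : Set (X → ℂ)} (hU : IsOpen U) (hne : U.Nonempty) {f : σ → (X → ℂ) → ℂ}
    {S : Set (σ → ℂ)}
    (hS : ∀ Q : MvPolynomial σ (MvPolynomial X ℂ), (∀ x ∈ U, evM f x Q = 0) → ∀ x ∈ U, ∀ y ∈ S,
      MvPolynomial.eval₂ (MvPolynomial.eval x) y Q = 0)
    (num : κ → MvPolynomial σ ℂ) (den : MvPolynomial σ ℂ)
    (hden : ∀ x ∈ U, MvPolynomial.eval (fun i => f i x) den ≠ 0) {q : MvPolynomial κ ℂ} (hq : q ≠ 0)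
    (hval : ∀ w : κ → ℂ, MvPolynomial.eval w q ≠ 0 → ∃ y ∈ S, MvPolynomial.eval y den ≠ 0 ∧
      ∀ k, MvPolynomial.eval y (num k) = w k * MvPolynomial.eval y den) :
    IndepM U fun k x => MvPolynomial.eval (fun i => f i x) (num k) / MvPolynomial.eval (fun i => f i x) den := by
  intro P hP
  have h1 : ∀ x ∈ U, evM f x (hom num den P.totalDegree P) = 0 := by
    intro x hx
    unfold evM
    rw [hom_eval num den P le_rfl x (fun i => f i x) (hden x hx)]
    have h2 := hP x hx
    unfold evM at h2
    rw [h2, mul_zero]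
  have h2 := hS _ h1
  have h3 : ∀ x ∈ U, MvPolynomial.map (MvPolynomial.eval x) P = 0 := by
    intro x hx
    have h4 : MvPolynomial.map (MvPolynomial.eval x) P * q = 0 := by
      apply MvPolynomial.funext
      intro w
      rw [map_mul, map_zero]
      by_cases hw : MvPolynomial.eval w q = 0
      · rw [hw, mul_zero]
      obtain ⟨y, hy, hyd, hyn⟩ := hval w hw
      have h5 := h2 x hx y hy
      rw [hom_eval num den P le_rfl x y hyd] at h5
      have h6 := (mul_eq_zero.1 h5).resolve_left (pow_ne_zero _ hyd)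
      have h7 : (fun k => MvPolynomial.eval y (num k) / MvPolynomial.eval y den) = w := by
        funext k
        rw [hyn k, mul_div_cancel_right₀ _ hyd]
      rw [h7] at h6
      rw [MvPolynomial.eval_map, h6, zero_mul]
    exact (mul_eq_zero.1 h4).resolve_right hq
  ext m : 1
  rw [MvPolynomial.coeff_zero]
  refine poly_zero hU hne fun x hx => ?_
  have h4 := congrArg (MvPolynomial.coeff m) (h3 x hx)
  rwa [MvPolynomial.coeff_map, MvPolynomial.coeff_zero] at h4

end Pool.Agent.Q311.LN
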