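import Pool.Agent.Y119.PLM.Gal
import Pool.Agent.Q311.LN.Ratio
import Pool.Agent.Q311.LN.Lin

/-!
# Period matrices with dense symplectic monodromy and the coordinates of Siegel spaces
-/

set_option autoImplicit false

open Filter NumberField Matrix

namespace Pool.Agent.Q311.LN

open Pool.Agent.Q311.MV
open Pool.Agent.Y119.PLM (MT Ix IsMon DenseMon sp_mem)
open Pool.Agent.Y890.MV (evM)

/-- the standard symplectic matrix of size `2 g` -/
noncomputable def Jst (g : ℕ) : Matrix (Fin (g + g)) (Fin (g + g)) ℂ :=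
  (Matrix.J (Fin g) ℂ).submatrix finSumFinEquiv.symm finSumFinEquiv.symm

/-- the left half of the first `g` rows -/
def left {R : Type} {g : ℕ} (Z : Matrix (Fin (g + g)) (Fin (g + g)) R) : Matrix (Fin g) (Fin g) R :=
  fun a b => Z (Fin.castAdd g a) (Fin.castAdd g b)

/-- the right half of the first `g` rows -/
def right {R : Type} {g : ℕ} (Z : Matrix (Fin (g + g)) (Fin (g + g)) R) : Matrix (Fin g) (Fin g) R :=
  fun a b => Z (Fin.castAdd g a) (Fin.natAdd g b)

/-- the coordinates of the point of the Siegel space with the first `g` rows of `Z` as holomorphic periods, with respect to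
the symplectic frame `N` -/
noncomputable def coord {g : ℕ} (Z N : Matrix (Fin (g + g)) (Fin (g + g)) ℂ) : Matrix (Fin g) (Fin g) ℂ :=
  (left (Z * N))⁻¹ * right (Z * N)

theorem Jst_det (g : ℕ) : (Jst g).det ≠ 0 := by
  rw [Jst, Matrix.det_submatrix_equiv_self]
  intro h0
  have h1 : (Matrix.J (Fin g) ℂ * Matrix.J (Fin g) ℂ).det = 0 := by rw [Matrix.det_mul, h0, zero_mul]
  rw [Matrix.J_squared] at h1
  have h2 : (-1 : Matrix (Fin g ⊕ Fin g) (Fin g ⊕ Fin g) ℂ) * (-1) = 1 := by simp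
  have h3 := congrArg Matrix.det h2
  rw [Matrix.det_mul, h1, zero_mul, Matrix.det_one] at h3
  exact zero_ne_one h3

/-- the matrix with given coordinates -/
noncomputable def frame {g : ℕ} (μ : ℂ) (Z : Matrix (Fin g) (Fin g) ℂ) : Matrix (Fin (g + g)) (Fin (g + g)) ℂ :=
  (Matrix.fromBlocks 1 Z 0 (μ⁻¹ • 1)).submatrix finSumFinEquiv.symm finSumFinEquiv.symm

theorem frame_left {g : ℕ} (μ : ℂ) (Z : Matrix (Fin g) (Fin g) ℂ) : left (frame μ Z) = 1 := by
  ext a b
  simp [left, frame]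

theorem frame_right {g : ℕ} (μ : ℂ) (Z : Matrix (Fin g) (Fin g) ℂ) : right (frame μ Z) = Z := by
  ext a b
  unfold right frame
  rw [Matrix.submatrix_apply, finSumFinEquiv_symm_apply_castAdd, finSumFinEquiv_symm_apply_natAdd,
    Matrix.fromBlocks_apply₁₂]

theorem frame_sym {g : ℕ} {μ : ℂ} (hμ : μ ≠ 0) {Z : Matrix (Fin g) (Fin g) ℂ} (hZ : Zᵀ = Z) :
    (frame μ Z)ᵀ * (μ • Jst g) * frame μ Z = Jst g := by
  rw [frame, Jst, Matrix.transpose_submatrix, Matrix.mul_smul, Matrix.smul_mul, Matrix.submatrix_mul_equiv,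
    Matrix.submatrix_mul_equiv, Matrix.fromBlocks_transpose, hZ]
  have h1 : μ • ((Matrix.fromBlocks (1 : Matrix (Fin g) (Fin g) ℂ)ᵀ (0 : Matrix (Fin g) (Fin g) ℂ)ᵀ Z
      (μ⁻¹ • (1 : Matrix (Fin g) (Fin g) ℂ))ᵀ) * Matrix.J (Fin g) ℂ * Matrix.fromBlocks 1 Z 0 (μ⁻¹ • 1)) =
      Matrix.J (Fin g) ℂ := by
    rw [Matrix.J, Matrix.fromBlocks_multiply, Matrix.fromBlocks_multiply, Matrix.fromBlocks_smul]
    simp only [Matrix.transpose_one, Matrix.transpose_zero, Matrix.transpose_smul, Matrix.mul_zero, Matrix.mul_one,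
      Matrix.one_mul, Matrix.zero_mul, zero_add, add_zero, Matrix.mul_neg, Matrix.neg_mul, Matrix.smul_mul,
      Matrix.mul_smul, smul_neg, smul_smul, mul_inv_cancel₀ hμ, one_smul, smul_zero, neg_zero]
    congr 1
    simp
  exact congrArg (fun M => M.submatrix (finSumFinEquiv (m := g) (n := g)).symm
    (finSumFinEquiv (m := g) (n := g)).symm) h1

variable {X κ : Type} [Fintype X] [Fintype κ] [DecidableEq κ] {n : κ → ℕ}

/-- the matrices with given entries -/
def mat (y : Ix n → ℂ) : MT n := fun j a b => y ⟨j, a, b⟩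

omit [Fintype κ] in
/-- functional relations between the entries of the period matrices hold on the torsor -/
theorem tor_inv {J J' : MT n} {U : Set (X → ℂ)} (hU : IsPreconnected U)
    {Y : (X → ℂ) → MT n} (hY : ∀ j a b, AnalyticOnNhd ℂ (fun x => Y x j a b) U)
    (hdet : ∀ j, (J j).det ≠ 0) (hsym : ∀ x ∈ U, ∀ j, (Y x j)ᵀ * J' j * Y x j = J j) (hD : DenseMon U Y J)
    (p : MvPolynomial (Ix n) (MvPolynomial X ℂ))
    (hp : ∀ x ∈ U, evM (fun (i : Ix n) x => Y x i.1 i.2.1 i.2.2) x p = 0) {x : X → ℂ} (hx : x ∈ U) {y : Ix n → ℂ}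
    (hA : ∀ j, (mat y j)ᵀ * J' j * mat y j = J j) :
    MvPolynomial.eval₂ (MvPolynomial.eval x) y p = 0 := by
  have hYd : ∀ j, (Y x j).det ≠ 0 := by
    intro j h0
    apply hdet j
    rw [← hsym x hx j, det_mul, h0, mul_zero]
  have hg : ∀ j, ((Y x j)⁻¹ * mat y j)ᵀ * J j * ((Y x j)⁻¹ * mat y j) = J j := by
    intro j
    have h1 : Y x j * ((Y x j)⁻¹ * mat y j) = mat y j := by
      rw [← Matrix.mul_assoc, mul_nonsing_inv _ (isUnit_iff_ne_zero.2 (hYd j)), Matrix.one_mul]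
    calc ((Y x j)⁻¹ * mat y j)ᵀ * J j * ((Y x j)⁻¹ * mat y j)
        = ((Y x j)⁻¹ * mat y j)ᵀ * ((Y x j)ᵀ * J' j * Y x j) * ((Y x j)⁻¹ * mat y j) := by rw [hsym x hx j]
      _ = (Y x j * ((Y x j)⁻¹ * mat y j))ᵀ * J' j * (Y x j * ((Y x j)⁻¹ * mat y j)) := by
        rw [transpose_mul (Y x j)]
        simp only [Matrix.mul_assoc]
      _ = J j := by rw [h1, hA j]
  have h1 := sp_mem hU hY hD (fun j => (Y x j)⁻¹ * mat y j) hg p hp x hx
  have h2 : Y x * (fun j => (Y x j)⁻¹ * mat y j) = mat y := by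
    funext j
    rw [Pi.mul_apply, ← Matrix.mul_assoc, mul_nonsing_inv _ (isUnit_iff_ne_zero.2 (hYd j)), Matrix.one_mul]
  rw [h2] at h1
  exact h1

/-- values of polynomials at analytic functions -/
theorem evc_an {σ : Type} [Fintype σ] {U : Set (X → ℂ)} {f : σ → (X → ℂ) → ℂ} (hf : ∀ i, AnalyticOnNhd ℂ (f i) U)
    (q : MvPolynomial σ ℂ) : AnalyticOnNhd ℂ (fun x => MvPolynomial.eval (fun i => f i x) q) U := by
  intro x hx
  have h1 : AnalyticAt ℂ (fun x => (fun i => f i x : σ → ℂ)) x := by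
    rw [analyticAt_pi_iff]
    exact fun i => hf i x hx
  exact AnalyticAt.comp (g := fun y : σ → ℂ => MvPolynomial.eval y q) (poly_an q _) h1

end Pool.Agent.Q311.LN
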