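import Pool.Agent.Q311.LN.Sieg

/-!
# Independence of the coordinates of Siegel spaces along families with dense monodromy
-/

set_option autoImplicit false

open Filter NumberField Matrix

namespace Pool.Agent.Q311.LN

open Pool.Agent.Q311.MV
open Pool.Agent.Y119.PLM (MT Ix IsMon DenseMon sp_mem)
open Pool.Agent.Y890.MV (evM)

/-- the size of the period matrices -/
abbrev dbl {κ : Type} (g : κ → ℕ) (j : κ) : ℕ := g j + g j

/-- the places `(a, b)`, `a ≤ b`, of the symmetric matrices of size `g j` -/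
abbrev Places {κ : Type} (g : κ → ℕ) : Type := {p : (j : κ) × (Fin (g j) × Fin (g j)) // p.2.1 ≤ p.2.2}

variable {X κ : Type} [Fintype X] [Fintype κ] [DecidableEq κ] {g : κ → ℕ}

/-- the matrix of the variables -/
noncomputable def gen (g : κ → ℕ) (j : κ) :
    Matrix (Fin (g j + g j)) (Fin (g j + g j)) (MvPolynomial (Ix (dbl g)) ℂ) :=
  Matrix.of fun (a b : Fin (dbl g j)) => MvPolynomial.X ⟨j, a, b⟩

/-- the matrix of the variables times `N` -/
noncomputable def GN (N : MT (dbl g)) (j : κ) :
    Matrix (Fin (g j + g j)) (Fin (g j + g j)) (MvPolynomial (Ix (dbl g)) ℂ) :=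
  gen g j * (N j).map MvPolynomial.C

/-- the denominator -/
noncomputable def den0 (N : MT (dbl g)) (j : κ) : MvPolynomial (Ix (dbl g)) ℂ :=
  (left (g := g j) (GN N j)).det

/-- the numerator -/
noncomputable def num0 (N : MT (dbl g)) (j : κ) (a b : Fin (g j)) : MvPolynomial (Ix (dbl g)) ℂ :=
  ((left (g := g j) (GN N j)).adjugate * right (g := g j) (GN N j)) a b

omit [Fintype κ] [DecidableEq κ] in
theorem gen_map (N : MT (dbl g)) (j : κ) (y : Ix (dbl g) → ℂ) :
    (GN N j).map (MvPolynomial.eval y) = mat y j * N j := by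
  rw [GN, Matrix.map_mul]
  have h1 : (gen g j).map (MvPolynomial.eval y) = mat y j := by
    ext a b
    simp [gen, mat]
  have h2 : (((N j).map (MvPolynomial.C : ℂ →+* MvPolynomial (Ix (dbl g)) ℂ)).map (MvPolynomial.eval y)) = N j := by
    ext a b
    simp
  rw [h1, h2]

theorem left_map {R S : Type} [CommRing R] [CommRing S] (φ : R →+* S) {m : ℕ}
    (Z : Matrix (Fin (m + m)) (Fin (m + m)) R) : (left Z).map φ = left (Z.map φ) := rfl

theorem right_map {R S : Type} [CommRing R] [CommRing S] (φ : R →+* S) {m : ℕ}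
    (Z : Matrix (Fin (m + m)) (Fin (m + m)) R) : (right Z).map φ = right (Z.map φ) := rfl

omit [Fintype κ] [DecidableEq κ] in
theorem den0_eval (N : MT (dbl g)) (j : κ) (y : Ix (dbl g) → ℂ) :
    MvPolynomial.eval y (den0 N j) =
      (left (g := g j) ((mat y j : Matrix (Fin (g j + g j)) (Fin (g j + g j)) ℂ) * N j)).det := by
  unfold den0
  rw [RingHom.map_det, RingHom.mapMatrix_apply, left_map, gen_map]

omit [Fintype κ] [DecidableEq κ] in
theorem num0_eval (N : MT (dbl g)) (j : κ) (a b : Fin (g j)) (y : Ix (dbl g) → ℂ) :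
    MvPolynomial.eval y (num0 N j a b) =
      ((left (g := g j) ((mat y j : Matrix (Fin (g j + g j)) (Fin (g j + g j)) ℂ) * N j)).adjugate *
        right (g := g j) ((mat y j : Matrix (Fin (g j + g j)) (Fin (g j + g j)) ℂ) * N j)) a b := by
  unfold num0
  rw [← Matrix.map_apply (f := MvPolynomial.eval y), Matrix.map_mul, right_map, gen_map]
  have h2 := RingHom.map_adjugate (MvPolynomial.eval y) (left (g := g j) (GN N j))
  rw [RingHom.mapMatrix_apply, RingHom.mapMatrix_apply, left_map, gen_map] at h2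
  rw [h2]

theorem sandwich {m : ℕ} (P Q R : Matrix (Fin m) (Fin m) ℂ) :
    Qᵀ * (Pᵀ * R * P) * Q = (P * Q)ᵀ * R * (P * Q) := by
  rw [Matrix.transpose_mul]
  simp only [Matrix.mul_assoc]

/-- **Independence of the coordinates.** -/
theorem siegel_indep {μ : κ → ℂ} (hμ : ∀ j, μ j ≠ 0) {U : Set (X → ℂ)} (hU : IsPreconnected U) (hUo : IsOpen U)
    (hne : U.Nonempty) {Y : (X → ℂ) → MT (dbl g)} (hY : ∀ j a b, AnalyticOnNhd ℂ (fun x => Y x j a b) U)
    (hsym : ∀ x ∈ U, ∀ j, (Y x j)ᵀ * (μ j • Jst (g j)) * Y x j = Jst (g j))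
    (hD : DenseMon U Y fun j => Jst (g j)) {N : MT (dbl g)} (hN : ∀ j, (N j)ᵀ * Jst (g j) * N j = Jst (g j))
    (hdet : ∀ x ∈ U, ∀ j, (left (g := g j) (Y x j * N j)).det ≠ 0) :
    IndepM U (fun (i : Places g) x => coord (g := g i.1.1) (Y x i.1.1) (N i.1.1) i.1.2.1 i.1.2.2) ∧
    ∀ i : Places g, AnalyticOnNhd ℂ
      (fun x => coord (g := g i.1.1) (Y x i.1.1) (N i.1.1) i.1.2.1 i.1.2.2) U := by
  classical
  let f : Ix (dbl g) → (X → ℂ) → ℂ := fun i x => Y x i.1 i.2.1 i.2.2
  let den : MvPolynomial (Ix (dbl g)) ℂ := ∏ j, den0 N j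
  let num : Places g → MvPolynomial (Ix (dbl g)) ℂ := fun i =>
    num0 N i.1.1 i.1.2.1 i.1.2.2 * ∏ j ∈ Finset.univ.erase i.1.1, den0 N j
  have hmat : ∀ x j, mat (fun i => f i x) j = Y x j := fun x j => rfl
  have hden : ∀ x ∈ U, MvPolynomial.eval (fun i => f i x) den ≠ 0 := by
    intro x hx
    rw [map_prod]
    refine Finset.prod_ne_zero_iff.2 fun j _ => ?_
    rw [den0_eval]
    exact hdet x hx j
  have hquot : ∀ (i : Places g) (y : Ix (dbl g) → ℂ), (∀ j, (left (g := g j) ((mat y j :
      Matrix (Fin (g j + g j)) (Fin (g j + g j)) ℂ) * N j)).det ≠ 0) →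
      MvPolynomial.eval y (num i) / MvPolynomial.eval y den =
        coord (g := g i.1.1) (mat y i.1.1) (N i.1.1) i.1.2.1 i.1.2.2 := by
    intro i y hy
    have h1 : MvPolynomial.eval y den = MvPolynomial.eval y (den0 N i.1.1) *
        MvPolynomial.eval y (∏ j ∈ Finset.univ.erase i.1.1, den0 N j) := by
      rw [← map_mul]
      congr 1
      exact (Finset.mul_prod_erase _ _ (Finset.mem_univ _)).symm
    have h2 : MvPolynomial.eval y (∏ j ∈ Finset.univ.erase i.1.1, den0 N j) ≠ 0 := by
      rw [map_prod]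
      refine Finset.prod_ne_zero_iff.2 fun j _ => ?_
      rw [den0_eval]
      exact hy j
    rw [h1]
    change MvPolynomial.eval y (_ * _) / _ = _
    rw [map_mul, mul_div_mul_right _ _ h2, num0_eval, den0_eval, coord, Matrix.inv_def, Ring.inverse_eq_inv',
      Matrix.smul_mul, Matrix.smul_apply, smul_eq_mul, div_eq_inv_mul]
  constructor
  · have h1 := indep_ratio (f := f) hUo hne
      (S := {y | ∀ j, (mat y j)ᵀ * (μ j • Jst (g j)) * mat y j = Jst (g j)})
      (fun Q hQ x hx y hy => tor_inv (J := fun j => Jst (g j)) (J' := fun j => μ j • Jst (g j)) hU hY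
        (fun j => Jst_det (g j)) hsym hD Q hQ hx hy) num den hden (q := 1) one_ne_zero ?_
    · intro P hP
      refine h1 P fun x hx => ?_
      rw [← hP x hx]
      unfold evM
      congr 1
      funext i
      exact hquot i (fun i => f i x) (fun j => hdet x hx j)
    · intro w _
      let Z : (j : κ) → Matrix (Fin (g j)) (Fin (g j)) ℂ := fun j a b =>
        w ⟨⟨j, (min a b, max a b)⟩, min_le_max⟩
      have hZ : ∀ j, (Z j)ᵀ = Z j := by
        intro j
        ext a b
        rw [Matrix.transpose_apply]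
        change w ⟨⟨j, (min b a, max b a)⟩, _⟩ = w ⟨⟨j, (min a b, max a b)⟩, _⟩
        simp only [min_comm b a, max_comm b a]
      have hNd : ∀ j, (N j).det ≠ 0 := by
        intro j h0
        apply Jst_det (g j)
        have := congrArg Matrix.det (hN j)
        rw [Matrix.det_mul] at this
        rw [← this]
        exact mul_eq_zero_of_right _ h0
      let A : MT (dbl g) := fun j => frame (μ j) (Z j) * (N j)⁻¹
      have hA : ∀ j, (A j * N j : Matrix (Fin (g j + g j)) (Fin (g j + g j)) ℂ) = frame (μ j) (Z j) := by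
        intro j
        change frame (μ j) (Z j) * (N j)⁻¹ * N j = _
        rw [Matrix.mul_assoc, Matrix.nonsing_inv_mul _ (isUnit_iff_ne_zero.2 (hNd j)), Matrix.mul_one]
      have hAs : ∀ j, (A j)ᵀ * (μ j • Jst (g j)) * A j = Jst (g j) := by
        intro j
        have h2 := frame_sym (hμ j) (hZ j)
        have h3 : (N j)ᵀ * ((A j)ᵀ * (μ j • Jst (g j)) * A j) * N j = (N j)ᵀ * Jst (g j) * N j := by
          have h7 : (N j)ᵀ * ((A j)ᵀ * (μ j • Jst (g j)) * A j) * N j =
              (A j * N j)ᵀ * (μ j • Jst (g j)) * (A j * N j) := sandwich _ _ _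
          rw [h7, hA j, h2, hN j]
        have h4 : IsUnit (N j)ᵀ.det := by
          rw [Matrix.det_transpose]
          exact isUnit_iff_ne_zero.2 (hNd j)
        have h5 : IsUnit (N j).det := isUnit_iff_ne_zero.2 (hNd j)
        have h6 := congrArg (fun M => (N j)ᵀ⁻¹ * M * (N j)⁻¹) h3
        simp only [← Matrix.mul_assoc] at h6
        simpa only [Matrix.nonsing_inv_mul _ h4, Matrix.one_mul, Matrix.mul_assoc, Matrix.mul_nonsing_inv _ h5,
          Matrix.mul_one] using h6
      have hy : ∀ j, mat (fun i : Ix (dbl g) => A i.1 i.2.1 i.2.2) j = A j := fun j => rfl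
      refine ⟨fun i => A i.1 i.2.1 i.2.2, fun j => ?_, ?_, fun i => ?_⟩
      · rw [hy]
        exact hAs j
      · rw [map_prod]
        refine Finset.prod_ne_zero_iff.2 fun j _ => ?_
        rw [den0_eval, hy, hA, frame_left, Matrix.det_one]
        exact one_ne_zero
      · have hd1 : ∀ j, (left (g := g j) ((mat (fun i : Ix (dbl g) => A i.1 i.2.1 i.2.2) j :
            Matrix (Fin (g j + g j)) (Fin (g j + g j)) ℂ) * N j)).det ≠ 0 := by
          intro j
          rw [hy, hA, frame_left, Matrix.det_one]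
          exact one_ne_zero
        have h2 := hquot i _ hd1
        have h3 : MvPolynomial.eval (fun i : Ix (dbl g) => A i.1 i.2.1 i.2.2) den ≠ 0 := by
          rw [map_prod]
          refine Finset.prod_ne_zero_iff.2 fun j _ => ?_
          rw [den0_eval]
          exact hd1 j
        rw [div_eq_iff h3] at h2
        rw [h2]
        congr 1
        rw [hy, coord, hA, frame_left, frame_right, inv_one, Matrix.one_mul]
        obtain ⟨⟨j, ⟨a, b⟩⟩, hab⟩ := i
        change w ⟨⟨j, (min a b, max a b)⟩, _⟩ = w ⟨⟨j, (a, b)⟩, hab⟩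
        have hab' : a ≤ b := hab
        simp only [min_eq_left hab', max_eq_right hab']
  · intro i
    have hf : ∀ k, AnalyticOnNhd ℂ (f k) U := fun k => hY k.1 k.2.1 k.2.2
    have h1 : AnalyticOnNhd ℂ (fun x => MvPolynomial.eval (fun k => f k x) (num i) /
        MvPolynomial.eval (fun k => f k x) den) U := fun x hx =>
      (evc_an hf (num i) x hx).fun_div (evc_an hf den x hx) (hden x hx)
    intro x hx
    refine (h1 x hx).congr ?_
    filter_upwards [hUo.mem_nhds hx] with t ht
    exact hquot i _ (fun j => hdet t ht j)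

end Pool.Agent.Q311.LN
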