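import Pool.Agent.Y890.VH.Minor
import Pool.Agent.Q311.MV.Spec
import Pool.Agent.Q311.LN.Lin

/-!
# Vectors with given transcendental constants in the subspaces of an analytic family
-/

set_option autoImplicit false

open Filter NumberField

namespace Pool.Agent.Q311.LN

open Pool.Agent.Q311.MV
open Pool.Agent.Y890.MV (evM RegularM InnerM)
open Pool.Agent.Y890.VH (cols D D_sum D_map D_zero D_mem exists_minor)

/-- the relations between the entries of the matrices `F x` over `ℂ[x]` are relations between the entries of `γ F x` -/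
def MonInv {X H C : Type} [Fintype H] (U : Set (X → ℂ)) (F : (X → ℂ) → Matrix H C ℂ) (γ : Matrix H H ℂ) : Prop :=
  ∀ p : MvPolynomial (H × C) (MvPolynomial X ℂ),
    (∀ x ∈ U, MvPolynomial.eval₂ (MvPolynomial.eval x) (fun i => F x i.1 i.2) p = 0) →
    ∀ x ∈ U, MvPolynomial.eval₂ (MvPolynomial.eval x) (fun i => (γ * F x) i.1 i.2) p = 0

/-- the vector `∑ a, ξ a * c a` -/
noncomputable def vec {H : Type} {k : ℕ} {K : Type} [Field K] [NumberField K] (io : K →+* ℂ) (ξ : Fin k → ℂ)
    (c : H → Fin k → 𝓞 K) : H → ℂ :=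
  fun h => ∑ a, ξ a * io (c h a : K)

/-- the points at which some small vector is in the span of the columns of `F s`, but not in the span of the columns of
all `γ F s` -/
def ExcSub {X H C : Type} [Fintype X] [Fintype H] (U : Set (X → ℂ)) (F : (X → ℂ) → Matrix H C ℂ)
    (Γ : Set (Matrix H H ℂ)) (k : ℕ) (K : Type) [Field K] [NumberField K] (io : K →+* ℂ) (ξ : Fin k → ℂ) (T : ℝ) :
    Set (X → K) :=
  {s | (∀ j, Y120.HtLe K T (s j)) ∧ (fun j => io (s j)) ∈ InnerM U k ∧
    ∃ c : H → Fin k → 𝓞 K, (∀ h a (φ : K →+* ℂ), ‖φ (c h a : K)‖ ≤ T ^ k) ∧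
      vec io ξ c ∈ cols (F fun j => io (s j)) ∧ ∃ γ ∈ Γ, vec io ξ c ∉ cols (γ * F fun j => io (s j))}

section
variable {H C : Type} [Fintype H] [DecidableEq H] [Fintype C] [DecidableEq C]

/-- the minors with integral coefficients -/
noncomputable def DZ {r : ℕ} (ι : Fin r → H) (κ : Fin r → C) (i h : H) : MvPolynomial (H × C) ℤ :=
  D ι κ i (fun m c => MvPolynomial.X (m, c)) (fun m => if m = h then 1 else 0)

omit [Fintype H] [Fintype C] [DecidableEq C] in
theorem DZ_eval {r : ℕ} (ι : Fin r → H) (κ : Fin r → C) (i h : H) (A : H → C → ℂ) :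
    MvPolynomial.eval (fun p => A p.1 p.2) (MvPolynomial.map (Int.castRingHom ℂ) (DZ ι κ i h)) =
      D ι κ i A fun m => if m = h then 1 else 0 := by
  rw [MvPolynomial.eval_map, DZ]
  have h1 := D_map ι κ i (MvPolynomial.eval₂Hom (Int.castRingHom ℂ) fun p : H × C => A p.1 p.2)
    (fun m c => MvPolynomial.X (m, c)) (fun m => if m = h then 1 else 0)
  have h2 : ∀ p, MvPolynomial.eval₂ (Int.castRingHom ℂ) (fun p : H × C => A p.1 p.2) p =
    MvPolynomial.eval₂Hom (Int.castRingHom ℂ) (fun p : H × C => A p.1 p.2) p := fun p => rfl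
  rw [h2, h1]
  congr 1
  · funext m c
    simp
  · funext m
    split_ifs <;> simp

/-- the relation of the minor -/
noncomputable def PV {r : ℕ} (ι : Fin r → H) (κ : Fin r → C) (i : H) (v : H → ℂ) : MvPolynomial (H × C) ℂ :=
  ∑ h, MvPolynomial.C (v h) * MvPolynomial.map (Int.castRingHom ℂ) (DZ ι κ i h)

omit [Fintype C] [DecidableEq C] in
theorem PV_eval {r : ℕ} (ι : Fin r → H) (κ : Fin r → C) (i : H) (v : H → ℂ) (A : H → C → ℂ) :
    MvPolynomial.eval (fun p => A p.1 p.2) (PV ι κ i v) = D ι κ i A v := by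
  rw [PV, map_sum]
  have h1 : v = fun m => ∑ h, v h * (if m = h then (1 : ℂ) else 0) := by
    funext m
    rw [Finset.sum_eq_single m]
    · simp
    · intro b _ hb
      rw [if_neg (Ne.symm hb), mul_zero]
    · intro hm
      exact absurd (Finset.mem_univ m) hm
  conv_rhs => rw [h1, D_sum]
  refine Finset.sum_congr rfl fun h _ => ?_
  rw [map_mul, MvPolynomial.eval_C, DZ_eval]

/-- the size of the coefficients -/
noncomputable def N0 (H C : Type) [Fintype H] [DecidableEq H] [Fintype C] [DecidableEq C] (r : ℕ) : ℕ :=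
  ∑ p : (Fin r → H) × (Fin r → C) × H × H, ∑ m ∈ (DZ p.1 p.2.1 p.2.2.1 p.2.2.2).support,
    ((DZ p.1 p.2.1 p.2.2.1 p.2.2.2).coeff m).natAbs

/-- the degrees -/
noncomputable def d0 (H C : Type) [Fintype H] [DecidableEq H] [Fintype C] [DecidableEq C] (r : ℕ) : ℕ :=
  ∑ p : (Fin r → H) × (Fin r → C) × H × H, ∑ y, (DZ p.1 p.2.1 p.2.2.1 p.2.2.2).degreeOf y

theorem N0_le {r : ℕ} (ι : Fin r → H) (κ : Fin r → C) (i : H) (m : H × C →₀ ℕ) :
    ∑ h, ((DZ ι κ i h).coeff m).natAbs ≤ N0 H C r := by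
  have h1 : ∀ h, ((DZ ι κ i h).coeff m).natAbs ≤ ∑ m ∈ (DZ ι κ i h).support, ((DZ ι κ i h).coeff m).natAbs := by
    intro h
    by_cases hm : m ∈ (DZ ι κ i h).support
    · exact Finset.single_le_sum (f := fun m => ((DZ ι κ i h).coeff m).natAbs) (fun _ _ => Nat.zero_le _) hm
    · rw [MvPolynomial.notMem_support_iff.1 hm]
      exact Nat.zero_le _
  refine (Finset.sum_le_sum fun h _ => h1 h).trans ?_
  unfold N0
  have h2 : ∑ h, ∑ m ∈ (DZ ι κ i h).support, ((DZ ι κ i h).coeff m).natAbs =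
      ∑ p ∈ Finset.univ.image (fun h => ((ι, κ, i, h) : (Fin r → H) × (Fin r → C) × H × H)),
        ∑ m ∈ (DZ p.1 p.2.1 p.2.2.1 p.2.2.2).support, ((DZ p.1 p.2.1 p.2.2.1 p.2.2.2).coeff m).natAbs := by
    rw [Finset.sum_image]
    intro a _ b _ hab
    exact (Prod.ext_iff.1 (Prod.ext_iff.1 (Prod.ext_iff.1 hab).2).2).2
  rw [h2]
  exact Finset.sum_le_sum_of_subset (Finset.subset_univ _)

omit [Fintype H] [DecidableEq H] [Fintype C] [DecidableEq C] in
theorem le_sum2 {α β : Type} [Fintype α] [Fintype β] (f : α → β → ℕ) (a : α) (b : β) : f a b ≤ ∑ p, ∑ y, f p y :=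
  (Finset.single_le_sum (f := f a) (fun _ _ => Nat.zero_le _) (Finset.mem_univ b)).trans
    (Finset.single_le_sum (f := fun p => ∑ y, f p y) (fun _ _ => Nat.zero_le _) (Finset.mem_univ a))

theorem d0_le {r : ℕ} (ι : Fin r → H) (κ : Fin r → C) (i h : H) (y : H × C) :
    (DZ ι κ i h).degreeOf y ≤ d0 H C r :=
  le_sum2 (fun (p : (Fin r → H) × (Fin r → C) × H × H) (y : H × C) =>
    (DZ p.1 p.2.1 p.2.2.1 p.2.2.2).degreeOf y) (ι, κ, i, h) y

end

variable {X H C : Type} [Fintype X] [DecidableEq X] [Nonempty X] [Fintype H] [DecidableEq H] [Fintype C]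
  [DecidableEq C]

omit [Fintype X] [DecidableEq X] [Nonempty X] [Fintype H] [DecidableEq H] [DecidableEq C] in
theorem rank_cols {A : Matrix H C ℂ} (hA : LinearIndependent ℂ fun c h => A h c) :
    Module.finrank ℂ (cols A) = Fintype.card C :=
  finrank_span_eq_card hA

omit [Fintype X] [DecidableEq X] [Nonempty X] [Fintype C] [DecidableEq C] in
theorem indep_mul {A : Matrix H C ℂ} (hA : LinearIndependent ℂ fun c h => A h c) {γ : Matrix H H ℂ}
    (hγ : IsUnit γ) : LinearIndependent ℂ fun c h => (γ * A) h c := by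
  have h1 : (fun c h => (γ * A) h c) = (γ.mulVecLin) ∘ fun (c : C) h => A h c := by
    funext c h
    rfl
  rw [h1]
  refine hA.map' _ ?_
  rw [LinearMap.ker_eq_bot]
  exact Matrix.mulVec_injective_of_isUnit hγ

/-- **small vectors in the subspaces of a family** -/
theorem sub_main {U : Set (X → ℂ)} {F : (X → ℂ) → Matrix H C ℂ} (hU : IsPreconnected U) (hUo : IsOpen U)
    (hne : U.Nonempty) (hF : ∀ h c, AnalyticOnNhd ℂ (fun x => F x h c) U)
    (hreg : RegularM U fun (i : H × C) x => F x i.1 i.2)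
    (hcol : ∀ x ∈ U, LinearIndependent ℂ fun c h => F x h c) (Γ : Set (Matrix H H ℂ))
    (hΓ : ∀ γ ∈ Γ, IsUnit γ ∧ MonInv U F γ) :
    ∃ (ω : ℝ → ℕ) (T₀ : ℝ), Tendsto ω atTop atTop ∧ Monotone ω ∧ ∀ T, T₀ ≤ T → 0 < ω T ∧
      ∀ (K : Type) [Field K] [NumberField K], Module.finrank ℚ K ≤ ω T → ∀ (io : K →+* ℂ) (ξ : Fin (ω T) → ℂ),
        Few (ω T) K io T (ExcSub U F Γ (ω T) K io ξ T) := by
  classical
  obtain ⟨ω₁, T₀, h1, h2, h3⟩ := spec_main (f := fun (i : H × C) x => F x i.1 i.2) hU hUo hne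
    (fun i => hF i.1 i.2) hreg
  set r := Fintype.card C with hr
  obtain ⟨T₁, hT₁⟩ := eventually_atTop.1 ((h1.eventually_ge_atTop (d0 H C r)).and (h1.eventually_ge_atTop 2))
  refine ⟨fun T => ω₁ T - 1, max (max T₀ T₁) (max 1 (N0 H C r)), ?_, ?_, fun T hT => ?_⟩
  · exact (tendsto_sub_atTop_nat 1).comp h1
  · intro a b hab
    exact Nat.sub_le_sub_right (h2 hab) 1
  have ha : T₀ ≤ T := (le_max_left _ _).trans ((le_max_left _ _).trans hT)
  have hb : T₁ ≤ T := (le_max_right _ _).trans ((le_max_left _ _).trans hT)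
  have hc : 1 ≤ T := (le_max_left _ _).trans ((le_max_right _ _).trans hT)
  have hd : (N0 H C r : ℝ) ≤ T := (le_max_right _ _).trans ((le_max_right _ _).trans hT)
  obtain ⟨hd0, h2'⟩ := hT₁ T hb
  set k := ω₁ T with hk
  have hk1 : k - 1 + 1 = k := by omega
  refine ⟨by change 0 < k - 1; omega, fun K _ _ hK io ξ => ?_⟩
  -- the constants for the exponent `k`
  let ξ' : Fin k → ℂ := fun a => if h : (a : ℕ) < k - 1 then ξ ⟨a, h⟩ else 0
  have hK' : Module.finrank ℚ K ≤ k := hK.trans (Nat.sub_le _ _)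
  obtain ⟨h4, h5, h6⟩ := (h3 T ha).2 K hK' io ξ'
  have hkpos : 0 < k - 1 := by omega
  have hsub : ExcSub U F Γ (k - 1) K io ξ T ⊆ {s : X → K | (∀ j, Y120.HtLe K T (s j)) ∧
      (fun j => io (s j)) ∈ InnerM U k ∧ ¬ SpecAt U (fun (i : H × C) x => F x i.1 i.2) k K io ξ' T
        (fun j => io (s j))} := by
    rintro s ⟨hs1, hs2, c, hc1, hc2, γ, hγ, hc3⟩
    have hkk : ((k - 1 : ℕ) : ℝ) ≤ k := by exact_mod_cast Nat.sub_le k 1
    have hin : (fun j => io (s j)) ∈ InnerM U k := by
      refine ⟨hs2.1.trans hkk, (Metric.ball_subset_ball ?_).trans hs2.2⟩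
      exact inv_anti₀ (by exact_mod_cast hkpos) hkk
    refine ⟨hs1, hin, fun hspec => hc3 ?_⟩
    have hsU : (fun j => io (s j)) ∈ U := hs2.2 (Metric.mem_ball_self (by
      have : (0 : ℝ) < ((k - 1 : ℕ) : ℝ) := by exact_mod_cast hkpos
      positivity))
    set A := F fun j => io (s j) with hA
    set v := vec io ξ c with hv
    -- the relations
    have hrel : ∀ (ι : Fin r → H) (κ : Fin r → C) (i : H), D ι κ i (γ * A) v = 0 := by
      intro ι κ i
      have hP0 : MvPolynomial.eval (fun p => A p.1 p.2) (PV ι κ i v) = 0 :=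
        (PV_eval ι κ i v A).trans (D_zero ι κ i A (rank_cols (hcol _ hsU)).le v hc2)
      have hPd : ∀ y, (PV ι κ i v).degreeOf y ≤ k := by
        intro y
        refine (MvPolynomial.degreeOf_sum_le _ _ _).trans (Finset.sup_le fun h _ => ?_)
        refine (MvPolynomial.degreeOf_C_mul_le _ _ _).trans ?_
        refine le_trans ?_ ((d0_le ι κ i h y).trans hd0)
        rw [MvPolynomial.degreeOf_le_iff]
        intro m hm
        exact MvPolynomial.monomial_le_degreeOf y (MvPolynomial.support_map_subset _ _ hm)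
      have hPc : CoefIn k K io ξ' T (PV ι κ i v) := by
        intro m
        refine ⟨fun a => if ha : (a : ℕ) < k - 1 then
          ∑ h, (((DZ ι κ i h).coeff m : ℤ) : 𝓞 K) * c h ⟨a, ha⟩ else 0, fun a φ => ?_, ?_⟩
        · by_cases ha' : (a : ℕ) < k - 1
          · simp only [dif_pos ha']
            have e1 : ((∑ h, (((DZ ι κ i h).coeff m : ℤ) : 𝓞 K) * c h ⟨a, ha'⟩ : 𝓞 K) : K) =
                ∑ h, (((DZ ι κ i h).coeff m : ℤ) : K) * (c h ⟨a, ha'⟩ : K) := by
              push_cast
              rfl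
            rw [e1, map_sum]
            have e2 : ∀ h, ‖φ ((((DZ ι κ i h).coeff m : ℤ) : K) * (c h ⟨a, ha'⟩ : K))‖ ≤
                (((DZ ι κ i h).coeff m).natAbs : ℝ) * T ^ (k - 1) := by
              intro h
              rw [map_mul, norm_mul, map_intCast, Complex.norm_intCast]
              have e3 : |(((DZ ι κ i h).coeff m : ℤ) : ℝ)| = (((DZ ι κ i h).coeff m).natAbs : ℝ) := by
                rw [Nat.cast_natAbs]
                simp
              rw [e3]
              exact mul_le_mul_of_nonneg_left (hc1 h ⟨a, ha'⟩ φ) (Nat.cast_nonneg _)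
            refine (norm_sum_le _ _).trans ((Finset.sum_le_sum fun h _ => e2 h).trans ?_)
            rw [← Finset.sum_mul]
            have e4 : (∑ h, (((DZ ι κ i h).coeff m).natAbs : ℝ)) ≤ T := by
              refine le_trans ?_ hd
              exact_mod_cast N0_le ι κ i m
            calc (∑ h, (((DZ ι κ i h).coeff m).natAbs : ℝ)) * T ^ (k - 1) ≤ T * T ^ (k - 1) :=
                  mul_le_mul_of_nonneg_right e4 (by positivity)
              _ = T ^ k := by rw [← pow_succ', hk1]
          · simp only [dif_neg ha']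
            have e1 : φ ((0 : 𝓞 K) : K) = 0 := by simp
            rw [e1, norm_zero]
            positivity
        · have e5 : (PV ι κ i v).coeff m = ∑ h, v h * (((DZ ι κ i h).coeff m : ℤ) : ℂ) := by
            rw [PV, MvPolynomial.coeff_sum]
            refine Finset.sum_congr rfl fun h _ => ?_
            rw [MvPolynomial.coeff_C_mul, MvPolynomial.coeff_map]
            rfl
          rw [e5]
          have e6 : ∀ h, v h = ∑ a : Fin k, ξ' a * (if ha : (a : ℕ) < k - 1 then io (c h ⟨a, ha⟩ : K) else 0) := by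
            intro h
            have e7 : v h = ∑ a : Fin (k - 1), ξ a * io (c h a : K) := rfl
            rw [e7]
            let em : Fin (k - 1) → Fin k := fun a => ⟨a, by omega⟩
            have hem : Function.Injective em := fun a b hab => Fin.ext (congrArg (fun q : Fin k => (q : ℕ)) hab)
            have e8 : ∑ a : Fin k, ξ' a * (if ha : (a : ℕ) < k - 1 then io (c h ⟨a, ha⟩ : K) else 0) =
                ∑ a ∈ Finset.univ.image em, ξ' a * (if ha : (a : ℕ) < k - 1 then io (c h ⟨a, ha⟩ : K) else 0) := by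
              symm
              refine Finset.sum_subset (Finset.subset_univ _) fun a _ hna => ?_
              have e9 : ¬ (a : ℕ) < k - 1 := by
                intro h9
                exact hna (Finset.mem_image.2 ⟨⟨a, h9⟩, Finset.mem_univ _, rfl⟩)
              rw [dif_neg e9, mul_zero]
            rw [e8, Finset.sum_image (fun a _ b _ hab => hem hab)]
            refine Finset.sum_congr rfl fun a _ => ?_
            have e9 : ((em a : Fin k) : ℕ) < k - 1 := a.2
            simp only [ξ', dif_pos e9]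
            rfl
          have e10 : ∀ h, v h * (((DZ ι κ i h).coeff m : ℤ) : ℂ) =
              ∑ a : Fin k, ξ' a * ((((DZ ι κ i h).coeff m : ℤ) : ℂ) *
                (if ha : (a : ℕ) < k - 1 then io (c h ⟨a, ha⟩ : K) else 0)) := by
            intro h
            rw [e6 h, Finset.sum_mul]
            refine Finset.sum_congr rfl fun a _ => ?_
            ring
          rw [Finset.sum_congr rfl fun h _ => e10 h, Finset.sum_comm]
          refine Finset.sum_congr rfl fun a _ => ?_
          rw [← Finset.mul_sum]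
          congr 1
          by_cases ha' : (a : ℕ) < k - 1
          · simp only [dif_pos ha']
            have e11 : ((∑ h, (((DZ ι κ i h).coeff m : ℤ) : 𝓞 K) * c h ⟨a, ha'⟩ : 𝓞 K) : K) =
                ∑ h, (((DZ ι κ i h).coeff m : ℤ) : K) * (c h ⟨a, ha'⟩ : K) := by
              push_cast
              rfl
            rw [e11, map_sum]
            refine Finset.sum_congr rfl fun h _ => ?_
            rw [map_mul, map_intCast]
          · simp only [dif_neg ha']
            simp
      obtain ⟨G, hG1, hG2, -⟩ := hspec (PV ι κ i v) hPd hPc hP0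
      have h7 := (hΓ γ hγ).2 G hG1 _ hsU
      rw [← MvPolynomial.eval_map, hG2] at h7
      exact (PV_eval ι κ i v (γ * A)).symm.trans h7
    obtain ⟨ι, κ, hικ⟩ := exists_minor (γ * A) r (rank_cols (indep_mul (hcol _ hsU) (hΓ γ hγ).1))
    exact D_mem ι κ (γ * A) hικ v fun i => hrel ι κ i
  have hle : T ^ ((k : ℝ)⁻¹) ≤ T ^ (((k - 1 : ℕ) : ℝ)⁻¹) := by
    refine Real.rpow_le_rpow_of_exponent_le hc ?_
    exact inv_anti₀ (by exact_mod_cast hkpos) (by exact_mod_cast Nat.sub_le k 1)
  refine ⟨h4.mono (Nat.floor_le_floor hle) (Nat.floor_le_floor hle) (Set.image_mono hsub), h5.subset hsub, ?_⟩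
  refine (le_trans (by exact_mod_cast Set.ncard_le_ncard hsub h5) h6).trans ?_
  exact mul_le_mul_of_nonneg_right hle (by positivity)

end Pool.Agent.Q311.LN
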