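import Pool.Agent.Q311.LN.Dns

/-!
# Independence of the coordinates of the symmetric spaces of unitary groups along families with dense monodromy
-/

set_option autoImplicit false

open Filter NumberField Matrix

namespace Pool.Agent.Q311.LN

open Pool.Agent.Q311.MV
open Pool.Agent.Y119.PLM (MT Ix IsMon)
open Pool.Agent.Y890.MV (evM)

/-- the left block (`p` columns) of the first `p` rows -/
def lft {R : Type} {p q : ℕ} (Z : Matrix (Fin (p + q)) (Fin (p + q)) R) : Matrix (Fin p) (Fin p) R :=
  fun a b => Z (Fin.castAdd q a) (Fin.castAdd q b)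

/-- the right block (`q` columns) of the first `p` rows -/
def rgt {R : Type} {p q : ℕ} (Z : Matrix (Fin (p + q)) (Fin (p + q)) R) : Matrix (Fin p) (Fin q) R :=
  fun a b => Z (Fin.castAdd q a) (Fin.natAdd p b)

/-- the coordinates of the span of the first `p` rows of `Z` with respect to the frame `N` -/
noncomputable def crd {p q : ℕ} (Z N : Matrix (Fin (p + q)) (Fin (p + q)) ℂ) : Matrix (Fin p) (Fin q) ℂ :=
  (lft (Z * N))⁻¹ * rgt (Z * N)

/-- the matrix with given coordinates -/
noncomputable def frm {p q : ℕ} (Z : Matrix (Fin p) (Fin q) ℂ) (D : Matrix (Fin q) (Fin q) ℂ) :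
    Matrix (Fin (p + q)) (Fin (p + q)) ℂ :=
  (Matrix.fromBlocks 1 Z 0 D).submatrix finSumFinEquiv.symm finSumFinEquiv.symm

theorem frm_lft {p q : ℕ} (Z : Matrix (Fin p) (Fin q) ℂ) (D : Matrix (Fin q) (Fin q) ℂ) : lft (frm Z D) = 1 := by
  ext a b
  simp [lft, frm]

theorem frm_rgt {p q : ℕ} (Z : Matrix (Fin p) (Fin q) ℂ) (D : Matrix (Fin q) (Fin q) ℂ) : rgt (frm Z D) = Z := by
  ext a b
  unfold rgt frm
  rw [Matrix.submatrix_apply, finSumFinEquiv_symm_apply_castAdd, finSumFinEquiv_symm_apply_natAdd,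
    Matrix.fromBlocks_apply₁₂]

theorem frm_det {p q : ℕ} (Z : Matrix (Fin p) (Fin q) ℂ) (D : Matrix (Fin q) (Fin q) ℂ) : (frm Z D).det = D.det := by
  rw [frm, Matrix.det_submatrix_equiv_self, Matrix.det_fromBlocks_zero₂₁, Matrix.det_one, one_mul]

/-- a matrix with given determinant -/
theorem exists_det {q : ℕ} (hq : 0 < q) (d : ℂ) : ∃ D : Matrix (Fin q) (Fin q) ℂ, D.det = d := by
  refine ⟨Matrix.diagonal (Function.update 1 ⟨0, hq⟩ d), ?_⟩
  rw [Matrix.det_diagonal, Finset.prod_update_of_mem (Finset.mem_univ _)]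
  simp

/-- the size of the period matrices -/
abbrev psq {κ : Type} (p q : κ → ℕ) (j : κ) : ℕ := p j + q j

/-- the places of the matrices of size `p j × q j` -/
abbrev Plc {κ : Type} (p q : κ → ℕ) : Type := (j : κ) × (Fin (p j) × Fin (q j))

variable {X κ : Type} [Fintype X] [Fintype κ] [DecidableEq κ] {p q : κ → ℕ}

theorem lft_map {R S : Type} [CommRing R] [CommRing S] (φ : R →+* S) {m k : ℕ}
    (Z : Matrix (Fin (m + k)) (Fin (m + k)) R) : (lft Z).map φ = lft (Z.map φ) := rfl

theorem rgt_map {R S : Type} [CommRing R] [CommRing S] (φ : R →+* S) {m k : ℕ}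
    (Z : Matrix (Fin (m + k)) (Fin (m + k)) R) : (rgt Z).map φ = rgt (Z.map φ) := rfl

/-- the denominator -/
noncomputable def denU (N : MT (psq p q)) (j : κ) : MvPolynomial (Ix (psq p q)) ℂ :=
  (lft (p := p j) (q := q j) (gnn N j)).det

/-- the numerator -/
noncomputable def numU (N : MT (psq p q)) (j : κ) (a : Fin (p j)) (b : Fin (q j)) : MvPolynomial (Ix (psq p q)) ℂ :=
  ((lft (p := p j) (q := q j) (gnn N j)).adjugate * rgt (p := p j) (q := q j) (gnn N j)) a b

omit [Fintype κ] [DecidableEq κ] in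
theorem denU_eval (N : MT (psq p q)) (j : κ) (y : Ix (psq p q) → ℂ) :
    MvPolynomial.eval y (denU N j) = (lft (p := p j) (q := q j) (mat y j * N j)).det := by
  unfold denU
  rw [RingHom.map_det, RingHom.mapMatrix_apply, lft_map, gnn_map]

omit [Fintype κ] [DecidableEq κ] in
theorem numU_eval (N : MT (psq p q)) (j : κ) (a : Fin (p j)) (b : Fin (q j)) (y : Ix (psq p q) → ℂ) :
    MvPolynomial.eval y (numU N j a b) =
      ((lft (p := p j) (q := q j) (mat y j * N j)).adjugate * rgt (p := p j) (q := q j) (mat y j * N j)) a b := by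
  unfold numU
  rw [← Matrix.map_apply (f := MvPolynomial.eval y), Matrix.map_mul, rgt_map, gnn_map]
  have h2 := RingHom.map_adjugate (MvPolynomial.eval y) (lft (p := p j) (q := q j) (gnn N j))
  rw [RingHom.mapMatrix_apply, RingHom.mapMatrix_apply, lft_map, gnn_map] at h2
  rw [h2]

/-- **Independence of the coordinates.** -/
theorem unitary_indep {δ : κ → ℂ} (hδ : ∀ j, δ j ≠ 0) {U : Set (X → ℂ)} (hU : IsPreconnected U) (hUo : IsOpen U)
    (hne : U.Nonempty) {Y : (X → ℂ) → MT (psq p q)} (hY : ∀ j a b, AnalyticOnNhd ℂ (fun x => Y x j a b) U)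
    (hq : ∀ j, 0 < q j) (hdY : ∀ x ∈ U, ∀ j, (Y x j).det = δ j)
    (hD : DenseIn U Y {g | ∀ j, (g j).det = 1}) {N : MT (psq p q)} (hN : ∀ j, (N j).det ≠ 0)
    (hdet : ∀ x ∈ U, ∀ j, (lft (p := p j) (q := q j) (Y x j * N j)).det ≠ 0) :
    IndepM U (fun (i : Plc p q) x => crd (p := p i.1) (q := q i.1) (Y x i.1) (N i.1) i.2.1 i.2.2) ∧
    ∀ i : Plc p q, AnalyticOnNhd ℂ
      (fun x => crd (p := p i.1) (q := q i.1) (Y x i.1) (N i.1) i.2.1 i.2.2) U := by
  classical
  let f : Ix (psq p q) → (X → ℂ) → ℂ := fun i x => Y x i.1 i.2.1 i.2.2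
  let den : MvPolynomial (Ix (psq p q)) ℂ := ∏ j, denU N j
  let num : Plc p q → MvPolynomial (Ix (psq p q)) ℂ := fun i =>
    numU N i.1 i.2.1 i.2.2 * ∏ j ∈ Finset.univ.erase i.1, denU N j
  have hmat : ∀ x j, mat (fun i => f i x) j = Y x j := fun x j => rfl
  have hden : ∀ x ∈ U, MvPolynomial.eval (fun i => f i x) den ≠ 0 := by
    intro x hx
    rw [map_prod]
    refine Finset.prod_ne_zero_iff.2 fun j _ => ?_
    rw [denU_eval]
    exact hdet x hx j
  have hquot : ∀ (i : Plc p q) (y : Ix (psq p q) → ℂ),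
      (∀ j, (lft (p := p j) (q := q j) (mat y j * N j)).det ≠ 0) →
      MvPolynomial.eval y (num i) / MvPolynomial.eval y den =
        crd (p := p i.1) (q := q i.1) (mat y i.1) (N i.1) i.2.1 i.2.2 := by
    intro i y hy
    have h1 : MvPolynomial.eval y den = MvPolynomial.eval y (denU N i.1) *
        MvPolynomial.eval y (∏ j ∈ Finset.univ.erase i.1, denU N j) := by
      rw [← map_mul]
      congr 1
      exact (Finset.mul_prod_erase _ _ (Finset.mem_univ _)).symm
    have h2 : MvPolynomial.eval y (∏ j ∈ Finset.univ.erase i.1, denU N j) ≠ 0 := by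
      rw [map_prod]
      refine Finset.prod_ne_zero_iff.2 fun j _ => ?_
      rw [denU_eval]
      exact hy j
    rw [h1]
    change MvPolynomial.eval y (_ * _) / _ = _
    rw [map_mul, mul_div_mul_right _ _ h2, numU_eval, denU_eval, crd, Matrix.inv_def, Ring.inverse_eq_inv',
      Matrix.smul_mul, Matrix.smul_apply, smul_eq_mul, div_eq_inv_mul]
  constructor
  · have h1 := indep_ratio (f := f) hUo hne (S := {y | ∀ j, (mat y j).det = δ j})
      (fun Q hQ x hx y hy => dns_inv (G := {g | ∀ j, (g j).det = 1}) hU hY hD Q hQ hx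
        (fun j => by rw [hdY x hx j]; exact hδ j) (fun j => by
          rw [Matrix.det_mul, Matrix.det_nonsing_inv, hdY x hx j, hy j, Ring.inverse_eq_inv']
          exact inv_mul_cancel₀ (hδ j))) num den hden (q := 1) one_ne_zero ?_
    · intro P hP
      refine h1 P fun x hx => ?_
      rw [← hP x hx]
      unfold evM
      congr 1
      funext i
      exact hquot i (fun i => f i x) (fun j => hdet x hx j)
    · intro w _
      let Z : (j : κ) → Matrix (Fin (p j)) (Fin (q j)) ℂ := fun j a b => w ⟨j, (a, b)⟩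
      choose D hDd using fun j => exists_det (hq j) (δ j * (N j).det)
      let A : MT (psq p q) := fun j => frm (Z j) (D j) * (N j)⁻¹
      have hA : ∀ j, (A j * N j : Matrix (Fin (p j + q j)) (Fin (p j + q j)) ℂ) = frm (Z j) (D j) := by
        intro j
        change frm (Z j) (D j) * (N j)⁻¹ * N j = _
        rw [Matrix.mul_assoc, Matrix.nonsing_inv_mul _ (isUnit_iff_ne_zero.2 (hN j)), Matrix.mul_one]
      have hAd : ∀ j, (A j).det = δ j := by
        intro j
        have h2 := congrArg Matrix.det (hA j)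
        rw [Matrix.det_mul, frm_det, hDd] at h2
        exact mul_right_cancel₀ (hN j) h2
      have hy : ∀ j, mat (fun i : Ix (psq p q) => A i.1 i.2.1 i.2.2) j = A j := fun j => rfl
      have hd1 : ∀ j, (lft (p := p j) (q := q j)
          (mat (fun i : Ix (psq p q) => A i.1 i.2.1 i.2.2) j * N j)).det ≠ 0 := by
        intro j
        rw [hy, hA, frm_lft, Matrix.det_one]
        exact one_ne_zero
      have h3 : MvPolynomial.eval (fun i : Ix (psq p q) => A i.1 i.2.1 i.2.2) den ≠ 0 := by
        rw [map_prod]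
        refine Finset.prod_ne_zero_iff.2 fun j _ => ?_
        rw [denU_eval]
        exact hd1 j
      refine ⟨fun i => A i.1 i.2.1 i.2.2, fun j => ?_, h3, fun i => ?_⟩
      · rw [hy]
        exact hAd j
      · have h2 := hquot i _ hd1
        rw [div_eq_iff h3] at h2
        rw [h2]
        congr 1
        rw [hy, crd, hA, frm_lft, frm_rgt, inv_one, Matrix.one_mul]
  · intro i
    have hf : ∀ k, AnalyticOnNhd ℂ (f k) U := fun k => hY k.1 k.2.1 k.2.2
    have h1 : AnalyticOnNhd ℂ (fun x => MvPolynomial.eval (fun k => f k x) (num i) /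
        MvPolynomial.eval (fun k => f k x) den) U := fun x hx =>
      (evc_an hf (num i) x hx).fun_div (evc_an hf den x hx) (hden x hx)
    intro x hx
    refine (h1 x hx).congr ?_
    filter_upwards [hUo.mem_nhds hx] with t ht
    exact hquot i _ (fun j => hdet t ht j)

end Pool.Agent.Q311.LN
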